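import Pool.Agent.P.MP_01fe58_nt.Sums

/-!
Counting the typical `n` that have a representation whose cofactor has its largest prime at
scale `j`.
-/

namespace Pool.Agent.P.MP_01fe58_nt

open Finset Real Filter Pool.Agent.Lib.Sieve

theorem divisor_bound : ∃ C : ℝ, 0 < C ∧ ∀ j t : ℕ, 0 < t → t ≤ 2 ^ j →
    (t.divisors.card : ℝ) ≤ C * exp (0.03 * j) := by
  obtain ⟨P, hP⟩ : ∃ P : ℕ, (2 : ℝ) = (P : ℝ) ^ (1 / 25 : ℝ) :=
    ⟨2 ^ 25, by rw [Nat.cast_pow, ← rpow_natCast, ← rpow_mul (by norm_num)]; norm_num⟩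
  refine ⟨38 ^ P, by positivity, fun j t ht htj => ?_⟩
  have l2 := log_two_gt_d9
  have l3 := log_two_lt_d9
  have h1 : ∀ p ∈ t.primeFactors, ((t.factorization p + 1 : ℕ) : ℝ) ≤
      (if p < P then 38 else 1) * ((p ^ t.factorization p : ℕ) : ℝ) ^ (1 / 25 : ℝ) := by
    intro p hp
    have hp2 : (2 : ℝ) ≤ p := by exact_mod_cast (Nat.prime_of_mem_primeFactors hp).two_le
    generalize t.factorization p = a
    have h2 : ((p ^ a : ℕ) : ℝ) ^ (1 / 25 : ℝ) = ((p : ℝ) ^ (1 / 25 : ℝ)) ^ a := by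
      rw [Nat.cast_pow, ← rpow_natCast, ← rpow_natCast, ← rpow_mul (by linarith),
        ← rpow_mul (by linarith), mul_comm]
    rw [h2]
    split_ifs with h
    · have h3 : exp (log 2 * (1 / 25)) ≤ (p : ℝ) ^ (1 / 25 : ℝ) := by
        rw [← rpow_def_of_pos (by norm_num)]
        exact rpow_le_rpow (by norm_num) hp2 (by norm_num)
      have h4 : exp (log 2 * (1 / 25)) ^ a ≤ ((p : ℝ) ^ (1 / 25 : ℝ)) ^ a := by gcongr
      rw [← exp_nat_mul] at h4
      have h5 := add_one_le_exp (a * (log 2 * (1 / 25)))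
      have h6 : (0 : ℝ) ≤ a := by positivity
      push_cast
      nlinarith
    · have h3 : 2 ≤ (p : ℝ) ^ (1 / 25 : ℝ) := by
        rw [hP]
        exact rpow_le_rpow (by positivity) (by exact_mod_cast not_lt.1 h) (by norm_num)
      have h4 : ((a + 1 : ℕ) : ℝ) ≤ 2 ^ a := by exact_mod_cast Nat.lt_two_pow_self
      rw [one_mul]
      exact h4.trans (by gcongr)
  rw [Nat.card_divisors ht.ne', Nat.cast_prod]
  refine (prod_le_prod (fun _ _ => by positivity) h1).trans ?_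
  rw [prod_mul_distrib, Real.finsetProd_rpow _ _ (fun _ _ => by positivity), ← Nat.cast_prod]
  have h2 : ∏ p ∈ t.primeFactors, p ^ t.factorization p = t :=
    Nat.prod_factorization_pow_eq_self ht.ne'
  rw [h2]
  apply mul_le_mul _ _ (by positivity) (by positivity)
  · rw [prod_ite, prod_const, prod_const_one, mul_one]
    apply pow_le_pow_right₀ (by norm_num)
    have : t.primeFactors.filter (fun p => p < P) ⊆ range P :=
      fun p hp => mem_range.2 (mem_filter.1 hp).2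
    simpa using card_le_card this
  · calc (t : ℝ) ^ (1 / 25 : ℝ) ≤ ((2 : ℝ) ^ j) ^ (1 / 25 : ℝ) :=
          rpow_le_rpow (by positivity) (by exact_mod_cast htj) (by norm_num)
      _ = exp (j * log 2 * (1 / 25)) := by rw [rpow_def_of_pos (by positivity), log_pow]
      _ ≤ _ := by
          have : (0 : ℝ) ≤ j := by positivity
          exact exp_le_exp.2 (by nlinarith)

theorem card_small_dvd_mul_le (T b t : ℕ) (ht : 0 < t) :
    ((Ioc 0 T).filter (fun d => d ∣ b * t)).card ≤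
      ((Ioc 0 T).filter (fun d => d ∣ b)).card * t.divisors.card := by
  refine le_trans (card_le_card ?_) (card_image₂_le (· * ·) _ _)
  intro d hd
  rw [mem_filter, mem_Ioc] at hd
  obtain ⟨d₁, d₂, h1, h2, rfl⟩ := (Nat.dvd_mul).1 hd.2
  refine mem_image₂.2 ⟨d₁, mem_filter.2 ⟨mem_Ioc.2 ⟨Nat.pos_of_mul_pos_right hd.1.1, ?_⟩, h1⟩,
    d₂, Nat.mem_divisors.2 ⟨h2, ht.ne'⟩, rfl⟩
  exact (Nat.le_mul_of_pos_right _ (Nat.pos_of_mul_pos_left hd.1.1)).trans hd.1.2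

open Classical in
theorem cofactor_sum_le : ∃ C : ℝ, 0 < C ∧ ∀ j : ℕ, 120 ≤ j → ∀ B : Finset ℕ,
    (∀ b ∈ B, b ≠ 0 ∧ (∀ p, p.Prime → p ∣ b → p ≤ 2 ^ 2 ^ j) ∧
      (∃ q, q.Prime ∧ 2 ^ 2 ^ (j - 1) < q ∧ q ∣ b) ∧
      (((Ioc 0 (2 ^ j)).filter (fun d => d ∣ b)).card : ℝ) ≤ exp (0.03 * j)) →
    ∑ b ∈ B, ∑ t ∈ insert (2 ^ j)
      ((Ioc 0 (2 ^ j)).filter (fun t => b * t ∈ Submonoid.closure genV)),
        gw (2 ^ j) b * (1 / (t : ℝ)) ≤
      C * exp (0.06 * j) * ((j : ℝ) + 1) ^ 5 / √((2 : ℝ) ^ j) := by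
  obtain ⟨C, hC0, hC⟩ := divisor_bound
  have hCS := CS_pos
  refine ⟨exp 13 + C * ((16 * CS + 2) * exp (32 + 16 * CS)), by positivity, fun j hj B hB => ?_⟩
  let F : ℕ → Finset ℕ := fun b =>
    (Ioc 0 (2 ^ j)).filter (fun t => b * t ∈ Submonoid.closure genV)
  have h1 : ∀ b ∈ B, ∑ t ∈ insert (2 ^ j) (F b), gw (2 ^ j) b * (1 / (t : ℝ)) ≤
      gw (2 ^ j) b * (1 / (2 : ℝ) ^ j) + ∑ t ∈ F b, gw (2 ^ j) (b * t) := by
    intro b hb
    have h2 : ∑ t ∈ F b, gw (2 ^ j) b * (1 / (t : ℝ)) = ∑ t ∈ F b, gw (2 ^ j) (b * t) := by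
      refine sum_congr rfl fun t ht => ?_
      have ht' := mem_Ioc.1 (mem_filter.1 ht).1
      rw [gw, gw, cw_mul _ (hB b hb).1 ht'.1.ne', cw_eq_one (n := t) (fun p _ hp => by
        rw [Pool.Agent.P.MP_01fe58_nt.hb,
          if_neg (not_lt.2 ((Nat.le_of_dvd ht'.1 hp).trans ht'.2))])]
      push_cast; ring
    rw [← h2]
    by_cases h : 2 ^ j ∈ F b
    · rw [insert_eq_of_mem h]
      have := gw_nonneg (2 ^ j) b
      exact le_add_of_nonneg_left (by positivity)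
    · rw [sum_insert h]; push_cast; exact le_rfl
  refine (sum_le_sum h1).trans ?_
  rw [sum_add_distrib, ← sum_mul]
  have h2 := smooth_sum_le (j := j) (by omega) B fun b hb => ⟨(hB b hb).1, (hB b hb).2.1⟩
  set ρ := √((2 : ℝ) ^ j) with hρ
  have hρ0 : 0 < ρ := sqrt_pos.2 (by positivity)
  have hρ2 : (2 : ℝ) ^ j = ρ * ρ := by rw [hρ, mul_self_sqrt (by positivity)]
  have he : 1 ≤ exp (0.06 * j) := one_le_exp (by positivity)
  have hj0 : (0 : ℝ) ≤ j := by positivity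
  have h3 : (∑ b ∈ B, gw (2 ^ j) b) * (1 / (2 : ℝ) ^ j) ≤
      exp 13 * exp (0.06 * j) * ((j : ℝ) + 1) ^ 5 / ρ := by
    have h4 : (j : ℝ) ≤ ((j : ℝ) + 1) ^ 5 :=
      le_trans (by linarith) (le_self_pow₀ (by linarith) (by norm_num))
    calc _ ≤ (exp 13 * j * ρ) * (1 / (2 : ℝ) ^ j) := by gcongr
      _ = exp 13 * 1 * j / ρ := by rw [hρ2]; field_simp
      _ ≤ _ := by gcongr
  have h4 : ∑ b ∈ B, ∑ t ∈ F b, gw (2 ^ j) (b * t) ≤
      C * ((16 * CS + 2) * exp (32 + 16 * CS)) * exp (0.06 * j) * ((j : ℝ) + 1) ^ 5 / ρ := by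
    rw [sum_sigma', sum_comp (gw (2 ^ j)) (fun x : (Σ _ : ℕ, ℕ) => x.1 * x.2)]
    set V := (B.sigma F).image (fun x : (Σ _ : ℕ, ℕ) => x.1 * x.2)
    have h5 : ∀ v ∈ V, (((B.sigma F).filter (fun x => x.1 * x.2 = v)).card : ℝ) ≤
        C * exp (0.06 * j) := by
      intro v hv
      obtain ⟨⟨b, t⟩, hx, rfl⟩ := mem_image.1 hv
      rw [mem_sigma] at hx
      have ht := mem_Ioc.1 (mem_filter.1 hx.2).1
      have h6 : ((B.sigma F).filter (fun x => x.1 * x.2 = b * t)).card ≤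
          ((Ioc 0 (2 ^ j)).filter (fun d => d ∣ b * t)).card := by
        refine card_le_card_of_injOn (fun x => x.2) ?_ ?_
        · intro x hx
          simp only [coe_filter, mem_sigma, Set.mem_ofPred_eq] at hx ⊢
          exact ⟨(mem_filter.1 hx.1.2).1, hx.2 ▸ dvd_mul_left _ _⟩
        · rintro ⟨b1, t1⟩ h1 ⟨b2, t2⟩ h2 h12
          simp only [coe_filter, mem_sigma, Set.mem_ofPred_eq] at h1 h2 h12
          subst h12
          have h7 := (mem_Ioc.1 (mem_filter.1 h1.1.2).1).1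
          have : b1 = b2 := Nat.eq_of_mul_eq_mul_right h7 (h1.2.trans h2.2.symm)
          rw [this]
      have h7 := h6.trans (card_small_dvd_mul_le _ b t ht.1)
      calc _ ≤ (((Ioc 0 (2 ^ j)).filter (fun d => d ∣ b)).card : ℝ) * t.divisors.card := by
            exact_mod_cast h7
        _ ≤ exp (0.03 * j) * (C * exp (0.03 * j)) :=
            mul_le_mul (hB b hx.1).2.2.2 (hC j t ht.1 ht.2) (Nat.cast_nonneg _) (exp_pos _).le
        _ = C * exp (0.06 * j) := by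
            rw [show (0.06 : ℝ) * j = 0.03 * j + 0.03 * j by ring, exp_add]; ring
    have h6 := big_monoid_sum_le hj (V.sup id) V (fun v hv => by
      obtain ⟨⟨b, t⟩, hx, rfl⟩ := mem_image.1 hv
      rw [mem_sigma] at hx
      obtain ⟨q, hq, h1, h2⟩ := (hB b hx.1).2.2.1
      exact ⟨(mem_filter.1 hx.2).2, mul_ne_zero (hB b hx.1).1
        (mem_Ioc.1 (mem_filter.1 hx.2).1).1.ne', le_sup (f := id) hv, q, hq, h1, h2.mul_right _⟩)
    calc _ ≤ ∑ v ∈ V, C * exp (0.06 * j) * gw (2 ^ j) v := by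
          refine sum_le_sum fun v hv => ?_
          rw [nsmul_eq_mul]
          exact mul_le_mul_of_nonneg_right (h5 v hv) (gw_nonneg _ _)
      _ ≤ C * exp (0.06 * j) *
          ((16 * CS + 2) * exp (32 + 16 * CS) * ((j : ℝ) + 1) ^ 5 / ρ) := by
          rw [← mul_sum]; exact mul_le_mul_of_nonneg_left h6 (by positivity)
      _ = _ := by ring
  calc _ ≤ _ := add_le_add h3 h4
    _ = _ := by ring

/-- Typical `n` with a representation whose cofactor has its largest prime at scale `j`. -/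
def Bad (j K g n : ℕ) : Prop :=
  1 ≤ exp (0.59 * j) * cw (ha (2 ^ j) (2 ^ 2 ^ j)) n ∧
  (((Ioc 0 (2 ^ j)).filter (fun d => d ∣ n)).card : ℝ) ≤ exp (0.03 * j) ∧
  ∃ b c s t : ℕ, n = b * c ∧ b * t ∈ Submonoid.closure genV ∧ 0 < s ∧ 0 < t ∧ s * t ≤ K ∧
    (s * c + 1).Prime ∧ 2 ^ g ≤ c ∧ (∀ p, p.Prime → p ∣ b → p ≤ 2 ^ 2 ^ j) ∧
    ∃ q, q.Prime ∧ 2 ^ 2 ^ (j - 1) < q ∧ q ∣ b

theorem shifted_bound {i j g k s N : ℕ} (hj : 120 ≤ j) (hg : 120 ≤ g) (hk : i + 1 ≤ k * g)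
    (hi : 1 ≤ i) (hij : 2 ^ (j - 1) ≤ i + 1) (hs : 0 < s) (hN : 2 ^ g ≤ N) :
    ∑ c ∈ (Ioc 0 N).filter (fun c => (s * c + 1).Prime), cw (ha (2 ^ j) (2 ^ 2 ^ j)) c ≤
      CS * ew s * N * (2 * k / i) * (2 * k * ((j : ℝ) + 1) / √((2 : ℝ) ^ j)) := by
  have hZ : 2 ≤ 2 ^ j := le_trans (by norm_num) (Nat.pow_le_pow_right (by norm_num) (by omega : 1 ≤ j))
  have hY : 2 ≤ 2 ^ 2 ^ j := le_trans (by norm_num)
    (Nat.pow_le_pow_right (by norm_num) (by omega : 1 ≤ 2 ^ j))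
  have h1 := weighted_sieve (N := N) (s := s) ((Nat.pow_le_pow_right (by norm_num) hg).trans hN)
    hs hZ hY
  refine h1.trans ?_
  have l2 := log_two_gt_d9
  have hk0 : 0 < k := Nat.pos_of_ne_zero (by rintro rfl; omega)
  have hk1 : (1 : ℝ) ≤ k := by exact_mod_cast hk0
  have hi1 : (1 : ℝ) ≤ i := by exact_mod_cast hi
  have hg1 : (120 : ℝ) ≤ g := by exact_mod_cast hg
  have hk' : (i : ℝ) + 1 ≤ k * g := by exact_mod_cast hk
  have hj0 : (0 : ℝ) ≤ j := by positivity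
  have h2 : g * log 2 ≤ log N := by
    rw [← log_pow]
    exact log_le_log (by positivity) (by exact_mod_cast hN)
  have h3 : (i : ℝ) / (2 * k) ≤ log N := by
    rw [div_le_iff₀ (by positivity)]
    have : (g : ℝ) * (1 / 2) ≤ log N := le_trans (by gcongr; linarith) h2
    nlinarith
  have h4 : (2 : ℝ) ^ j ≤ 2 * k * g := by
    have h5 : 2 ^ j ≤ 2 * (i + 1) := by
      obtain ⟨l, rfl⟩ : ∃ l, j = l + 1 := ⟨j - 1, by omega⟩
      rw [pow_succ]; simp only [add_tsub_cancel_right] at hij; omega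
    have h6 : (2 : ℝ) ^ j ≤ 2 * (i + 1) := by exact_mod_cast h5
    linarith
  have h5 : (2 : ℝ) ^ j * log 2 / (2 * k) ≤ min (log ((2 ^ 2 ^ j : ℕ) : ℝ)) (log N) := by
    apply le_min
    · have : log ((2 ^ 2 ^ j : ℕ) : ℝ) = (2 : ℝ) ^ j * log 2 := by
        push_cast; rw [log_pow]; push_cast; ring
      rw [this]
      exact div_le_self (by positivity) (by linarith)
    · refine le_trans ?_ h2
      rw [div_le_iff₀ (by positivity)]
      calc (2 : ℝ) ^ j * log 2 ≤ (2 * k * g) * log 2 := by gcongr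
        _ = _ := by ring
  have h6 : √(log ((2 ^ j : ℕ) : ℝ) / min (log ((2 ^ 2 ^ j : ℕ) : ℝ)) (log N)) ≤
      2 * k * ((j : ℝ) + 1) / √((2 : ℝ) ^ j) := by
    rw [sqrt_le_iff]
    refine ⟨by positivity, ?_⟩
    rw [div_pow, sq_sqrt (by positivity)]
    have h7 : log ((2 ^ j : ℕ) : ℝ) = j * log 2 := by push_cast; rw [log_pow]
    calc _ ≤ (j * log 2) / ((2 : ℝ) ^ j * log 2 / (2 * k)) := by rw [h7]; gcongr
      _ = (2 * k * j) / (2 : ℝ) ^ j := by field_simp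
      _ ≤ _ := by
          gcongr
          have h8 : 1 ≤ 2 * k * ((j : ℝ) + 1) := by nlinarith
          calc 2 * k * (j : ℝ) ≤ 2 * k * ((j : ℝ) + 1) := by gcongr; linarith
            _ ≤ _ := le_self_pow₀ h8 (by norm_num)
  have hw := ew_pos s
  have hCS := CS_pos
  calc _ ≤ CS * ew s * (N / (i / (2 * k))) * (2 * k * ((j : ℝ) + 1) / √((2 : ℝ) ^ j)) := by
        unfold CS; gcongr
    _ = _ := by field_simp

open Classical in
theorem bad_count : ∃ C : ℝ, 0 < C ∧ ∀ i j g k : ℕ, 120 ≤ j → 120 ≤ g → i + 1 ≤ k * g → 1 ≤ i →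
    (((Ioc 0 (2 ^ (i + 1))).filter (Bad j (6 * i) g)).card : ℝ) ≤
      C * k ^ 2 * 2 ^ i * (((j : ℝ) + 1) ^ 6 * exp (-(0.007 * j))) := by
  obtain ⟨C, hC0, hC⟩ := cofactor_sum_le
  have hCS := CS_pos
  refine ⟨48 * CS * exp 15 * C, by positivity, fun i j g k hj hg hk hi => ?_⟩
  by_cases hij : 2 ^ (j - 1) ≤ i + 1
  swap
  · rw [filter_eq_empty_iff.2]
    · simp only [card_empty, Nat.cast_zero]; positivity
    · rintro n hn ⟨-, -, b, c, s, t, rfl, -, -, -, -, -, -, -, q, -, h1, h2⟩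
      rw [mem_Ioc] at hn
      have h3 := Nat.le_of_dvd hn.1 (h2.mul_right c)
      have h4 : 2 ^ (i + 1) ≤ 2 ^ 2 ^ (j - 1) := Nat.pow_le_pow_right (by norm_num) (by omega)
      omega
  set N := 2 ^ (i + 1) with hN
  set W := cw (ha (2 ^ j) (2 ^ 2 ^ j)) with hW
  have hW0 : ∀ n, 0 ≤ W n := cw_nonneg (ha_nonneg _ _)
  set B := (Ioc 0 N).filter (fun b => (∀ p, p.Prime → p ∣ b → p ≤ 2 ^ 2 ^ j) ∧
      (∃ q, q.Prime ∧ 2 ^ 2 ^ (j - 1) < q ∧ q ∣ b) ∧
      (((Ioc 0 (2 ^ j)).filter (fun d => d ∣ b)).card : ℝ) ≤ exp (0.03 * j) ∧ 2 ^ g ≤ N / b)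
    with hB
  let T : ℕ → Finset ℕ := fun b => insert (2 ^ j)
      ((Ioc 0 (2 ^ j)).filter (fun t => b * t ∈ Submonoid.closure genV))
  have hsub : (Ioc 0 N).filter (Bad j (6 * i) g) ⊆ B.biUnion fun b => (T b).biUnion fun t =>
      (Ioc 0 (6 * i / t)).biUnion fun s =>
        ((Ioc 0 (N / b)).filter (fun c => (s * c + 1).Prime)).image (fun c => b * c) := by
    intro n hn
    obtain ⟨hn, -, h2, b, c, s, t, rfl, h3, hs, ht, hst, hp, hc, hb, hq⟩ := mem_filter.1 hn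
    rw [mem_Ioc] at hn
    have hb0 : 0 < b := Nat.pos_of_mul_pos_right hn.1
    have hc0 : 0 < c := Nat.pos_of_mul_pos_left hn.1
    have hcN : c ≤ N / b := (Nat.le_div_iff_mul_le hb0).2 (by rw [mul_comm]; exact hn.2)
    have hbB : b ∈ B := by
      refine mem_filter.2 ⟨mem_Ioc.2 ⟨hb0, (Nat.le_mul_of_pos_right _ hc0).trans hn.2⟩,
        hb, hq, le_trans ?_ h2, hc.trans hcN⟩
      have h9 : (Ioc 0 (2 ^ j)).filter (fun d => d ∣ b) ⊆
          (Ioc 0 (2 ^ j)).filter (fun d => d ∣ b * c) := fun d hd =>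
        mem_filter.2 ⟨(mem_filter.1 hd).1, Dvd.dvd.mul_right (mem_filter.1 hd).2 c⟩
      exact_mod_cast card_le_card h9
    have hlast : b * c ∈
        ((Ioc 0 (N / b)).filter (fun c => (s * c + 1).Prime)).image (fun c => b * c) :=
      mem_image.2 ⟨c, mem_filter.2 ⟨mem_Ioc.2 ⟨hc0, hcN⟩, hp⟩, rfl⟩
    refine mem_biUnion.2 ⟨b, hbB, ?_⟩
    rcases le_or_gt t (2 ^ j) with h | h
    · exact mem_biUnion.2 ⟨t, mem_insert_of_mem (mem_filter.2 ⟨mem_Ioc.2 ⟨ht, h⟩, h3⟩),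
        mem_biUnion.2 ⟨s, mem_Ioc.2 ⟨hs, (Nat.le_div_iff_mul_le ht).2 hst⟩, hlast⟩⟩
    · exact mem_biUnion.2 ⟨2 ^ j, mem_insert_self _ _, mem_biUnion.2 ⟨s, mem_Ioc.2 ⟨hs,
        (Nat.le_div_iff_mul_le (by positivity)).2
          ((Nat.mul_le_mul_left _ h.le).trans hst)⟩, hlast⟩⟩
  set ρ := √((2 : ℝ) ^ j) with hρ
  have hρ0 : 0 < ρ := sqrt_pos.2 (by positivity)
  have hρ2 : (2 : ℝ) ^ j = ρ * ρ := by rw [hρ, mul_self_sqrt (by positivity)]
  have hi0 : (0 : ℝ) < i := by exact_mod_cast hi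
  set A : ℝ := 48 * CS * exp 15 * k ^ 2 * 2 ^ i * (((j : ℝ) + 1) / ρ) with hA
  have h1 : ∀ b ∈ B, ∀ t ∈ T b, ∑ s ∈ Ioc 0 (6 * i / t),
      ∑ n ∈ ((Ioc 0 (N / b)).filter (fun c => (s * c + 1).Prime)).image (fun c => b * c), W n ≤
      A * (gw (2 ^ j) b * (1 / (t : ℝ))) := by
    intro b hb t _
    obtain ⟨hb1, hb2, -, -, hb3⟩ := mem_filter.1 hb
    have hb0 := (mem_Ioc.1 hb1).1
    have hWb : W b = cw (Pool.Agent.P.MP_01fe58_nt.hb (2 ^ j)) b := cw_congr fun p hp hpb => by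
      simp only [ha, Pool.Agent.P.MP_01fe58_nt.hb, hb2 p hp hpb, and_true]
    have h2 : ∀ s ∈ Ioc 0 (6 * i / t),
        ∑ n ∈ ((Ioc 0 (N / b)).filter (fun c => (s * c + 1).Prime)).image (fun c => b * c), W n ≤
        gw (2 ^ j) b * (CS * N * (2 * k / i) * (2 * k * ((j : ℝ) + 1) / ρ)) * ew s := by
      intro s hs
      refine (sum_image_le_of_nonneg fun _ _ => hW0 _).trans ?_
      rw [sum_congr rfl (g := fun c => W b * W c) (fun c hc =>
        cw_mul _ hb0.ne' (mem_Ioc.1 (mem_filter.1 hc).1).1.ne'), ← mul_sum]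
      have h3 := shifted_bound hj hg hk hi hij (mem_Ioc.1 hs).1 hb3
      have h4 : ((N / b : ℕ) : ℝ) ≤ (N : ℝ) / b := Nat.cast_div_le
      have hw := ew_pos s
      calc _ ≤ W b * (CS * ew s * ((N : ℝ) / b) * (2 * k / i) * (2 * k * ((j : ℝ) + 1) / ρ)) := by
            refine mul_le_mul_of_nonneg_left (h3.trans ?_) (hW0 _)
            gcongr
        _ = _ := by rw [hWb, gw]; ring
    refine (sum_le_sum h2).trans ?_
    rw [← mul_sum]
    have h3 : ∑ s ∈ Ioc 0 (6 * i / t), ew s ≤ exp 15 * (6 * i / t) := by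
      refine (sum_ew_le _).trans (mul_le_mul_of_nonneg_left ?_ (exp_pos _).le)
      exact Nat.cast_div_le.trans (by push_cast; exact le_rfl)
    have := gw_nonneg (2 ^ j) b
    calc _ ≤ gw (2 ^ j) b * (CS * N * (2 * k / i) * (2 * k * ((j : ℝ) + 1) / ρ)) *
          (exp 15 * (6 * i / t)) := by gcongr
      _ = _ := by rw [hA, hN]; push_cast; rw [pow_succ (2 : ℝ) i]; field_simp; ring
  have h2 : ∑ n ∈ (Ioc 0 N).filter (Bad j (6 * i) g), W n ≤
      A * (C * exp (0.06 * j) * ((j : ℝ) + 1) ^ 5 / ρ) := by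
    refine (sum_le_sum_of_subset_of_nonneg hsub fun _ _ _ => hW0 _).trans ?_
    refine (sum_biUnion_le _ _ _ hW0).trans ?_
    refine le_trans (sum_le_sum fun b hb => (sum_biUnion_le _ _ _ hW0).trans
      (sum_le_sum fun t ht => (sum_biUnion_le _ _ _ hW0).trans (h1 b hb t ht))) ?_
    simp only [← mul_sum]
    refine mul_le_mul_of_nonneg_left ?_ (by positivity)
    simp only [mul_sum]
    exact hC j hj B fun b hb => by
      obtain ⟨hb1, hb2, hb3, hb4, -⟩ := mem_filter.1 hb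
      exact ⟨(mem_Ioc.1 hb1).1.ne', hb2, hb3, hb4⟩
  have h3 : (((Ioc 0 N).filter (Bad j (6 * i) g)).card : ℝ) ≤
      exp (0.59 * j) * ∑ n ∈ (Ioc 0 N).filter (Bad j (6 * i) g), W n := by
    rw [mul_sum, card_eq_sum_ones]
    push_cast
    exact sum_le_sum fun n hn => (mem_filter.1 hn).2.1
  have h4 : exp (0.59 * j) * exp (0.06 * j) / (2 : ℝ) ^ j ≤ exp (-(0.007 * j)) := by
    have h5 : (2 : ℝ) ^ j = exp (j * log 2) := by rw [exp_nat_mul, exp_log (by norm_num)]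
    rw [h5, ← exp_add, ← exp_sub]
    have := log_two_gt_d9
    have : (0 : ℝ) ≤ j := by positivity
    exact exp_le_exp.2 (by nlinarith)
  calc _ ≤ exp (0.59 * j) * (A * (C * exp (0.06 * j) * ((j : ℝ) + 1) ^ 5 / ρ)) :=
        h3.trans (by gcongr)
    _ = 48 * CS * exp 15 * C * k ^ 2 * 2 ^ i *
        (((j : ℝ) + 1) ^ 6 * (exp (0.59 * j) * exp (0.06 * j) / (2 : ℝ) ^ j)) := by
        rw [hA, hρ2]; field_simp
    _ ≤ _ := by gcongr

end Pool.Agent.P.MP_01fe58_nt
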