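import Pool.Agent.P.MP_01fe58_nt.Sums

/-!
Exceptional sets of small density.
-/

namespace Pool.Agent.P.MP_01fe58_nt

open Finset Real Filter Topology Pool.Agent.Lib.Sieve

open Classical in
theorem card_exists_dvd_le (N : ℕ) (D : Finset ℕ) (f : ℕ → ℕ) :
    (((Ioc 0 N).filter (fun n => ∃ d ∈ D, f d ∣ n)).card : ℝ) ≤
      N * ∑ d ∈ D, 1 / (f d : ℝ) := by
  have h1 : (Ioc 0 N).filter (fun n => ∃ d ∈ D, f d ∣ n) ⊆
      D.biUnion fun d => (Ioc 0 N).filter (fun n => f d ∣ n) := by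
    intro n hn
    obtain ⟨h1, d, hd, h2⟩ := mem_filter.1 hn
    exact mem_biUnion.2 ⟨d, hd, mem_filter.2 ⟨h1, h2⟩⟩
  calc _ ≤ ((∑ d ∈ D, ((Ioc 0 N).filter (fun n => f d ∣ n)).card : ℕ) : ℝ) := by
        exact_mod_cast (card_le_card h1).trans card_biUnion_le
    _ ≤ _ := by
        rw [mul_sum]; push_cast
        exact sum_le_sum fun d _ => (card_filter_dvd_le N (f d)).trans (by rw [mul_one_div])

/-- `n` has a large divisor of square type. -/
def Sq (Z n : ℕ) : Prop := ∃ r, Z < r ∧ (r * (r - 1) ∣ n ∨ r ^ 2 ∣ n)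

open Classical in
theorem card_sq_le (N : ℕ) {Z : ℕ} (hZ : 1 ≤ Z) :
    (((Ioc 0 N).filter (Sq Z)).card : ℝ) ≤ 2 * N / Z := by
  have h1 : (Ioc 0 N).filter (Sq Z) ⊆
      (Ioc 0 N).filter (fun n => ∃ r ∈ Ioc Z N, r * (r - 1) ∣ n) ∪
      (Ioc 0 N).filter (fun n => ∃ r ∈ Ioc Z N, r ^ 2 ∣ n) := by
    intro n hn
    obtain ⟨h1, r, hr, h2⟩ := mem_filter.1 hn
    have h3 := mem_Ioc.1 h1
    have h4 : r ∣ n := by
      rcases h2 with h | h
      · exact (dvd_mul_right _ _).trans h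
      · exact (dvd_pow_self r two_ne_zero).trans h
    have h5 : r ∈ Ioc Z N := mem_Ioc.2 ⟨hr, (Nat.le_of_dvd h3.1 h4).trans h3.2⟩
    rcases h2 with h | h
    · exact mem_union_left _ (mem_filter.2 ⟨h1, r, h5, h⟩)
    · exact mem_union_right _ (mem_filter.2 ⟨h1, r, h5, h⟩)
  have h2 := card_exists_dvd_le N (Ioc Z N) (fun r => r * (r - 1))
  have h3 := card_exists_dvd_le N (Ioc Z N) (fun r => r ^ 2)
  have h4 : ∑ r ∈ Ioc Z N, 1 / ((r * (r - 1) : ℕ) : ℝ) ≤ 1 / Z := by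
    refine le_trans (le_of_eq (sum_congr rfl fun r hr => ?_))
      (sum_inv_sq_le (Ioc Z N) hZ fun r hr => (mem_Ioc.1 hr).1)
    have := (mem_Ioc.1 hr).1
    rw [Nat.cast_mul, Nat.cast_sub (by omega), Nat.cast_one]
  have h5 : ∑ r ∈ Ioc Z N, 1 / ((r ^ 2 : ℕ) : ℝ) ≤ 1 / Z := by
    refine le_trans (le_of_eq (sum_congr rfl fun r hr => ?_))
      (sum_inv_sq_le' (Ioc Z N) hZ fun r hr => (mem_Ioc.1 hr).1)
    rw [div_pow, one_pow, Nat.cast_pow]
  have h6 := (card_le_card h1).trans (card_union_le _ _)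
  have hN : (0 : ℝ) ≤ N := Nat.cast_nonneg _
  calc _ ≤ (((Ioc 0 N).filter (fun n => ∃ r ∈ Ioc Z N, r * (r - 1) ∣ n)).card : ℝ) +
        (((Ioc 0 N).filter (fun n => ∃ r ∈ Ioc Z N, r ^ 2 ∣ n)).card : ℝ) := by
        exact_mod_cast h6
    _ ≤ N * (1 / Z) + N * (1 / Z) := add_le_add (h2.trans (mul_le_mul_of_nonneg_left h4 hN))
        (h3.trans (mul_le_mul_of_nonneg_left h5 hN))
    _ = _ := by ring

open Classical in
theorem card_sq_mul_le (N K : ℕ) {Z : ℕ} (hZ : 1 ≤ Z) :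
    (((Ioc 0 N).filter (fun n => ∃ k ∈ Ioc 0 K, Sq Z (n * k))).card : ℝ) ≤
      K * (2 * (N * K) / Z) := by
  have h1 : (Ioc 0 N).filter (fun n => ∃ k ∈ Ioc 0 K, Sq Z (n * k)) ⊆
      (Ioc 0 K).biUnion fun k => (Ioc 0 N).filter (fun n => Sq Z (n * k)) := by
    intro n hn
    obtain ⟨h1, d, hd, h2⟩ := mem_filter.1 hn
    exact mem_biUnion.2 ⟨d, hd, mem_filter.2 ⟨h1, h2⟩⟩
  have h2 : ∀ k ∈ Ioc 0 K, ((Ioc 0 N).filter (fun n => Sq Z (n * k))).card ≤
      ((Ioc 0 (N * K)).filter (Sq Z)).card := by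
    intro k hk
    rw [mem_Ioc] at hk
    refine card_le_card_of_injOn (fun n => n * k) ?_ ?_
    · intro n hn
      simp only [coe_filter, mem_Ioc, Set.mem_ofPred_eq] at hn ⊢
      exact ⟨⟨Nat.mul_pos hn.1.1 hk.1, Nat.mul_le_mul hn.1.2 hk.2⟩, hn.2⟩
    · intro a _ b _ hab
      exact Nat.eq_of_mul_eq_mul_right hk.1 hab
  have h3 := (card_le_card h1).trans (card_biUnion_le.trans (sum_le_sum h2))
  rw [sum_const, Nat.card_Ioc, smul_eq_mul, Nat.sub_zero] at h3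
  have h4 := card_sq_le (N * K) hZ
  calc _ ≤ (K : ℝ) * (((Ioc 0 (N * K)).filter (Sq Z)).card : ℝ) := by exact_mod_cast h3
    _ ≤ _ := by
        refine mul_le_mul_of_nonneg_left (h4.trans (le_of_eq ?_)) (Nat.cast_nonneg _)
        push_cast; ring

open Classical in
theorem card_smooth_le (i h : ℕ) :
    (((Ioc (2 ^ i) (2 ^ (i + 1))).filter (fun n => ∀ p, p.Prime → p ∣ n → p ≤ 2 ^ h)).card : ℝ)
      * i ≤ 4 * 2 ^ i * (h + 2) := by
  set N := 2 ^ (i + 1) with hN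
  set P := Nat.primesLE (2 ^ h) with hP
  have l2 := log_two_gt_d9
  have h1 : ∀ n ∈ (Ioc (2 ^ i) N).filter (fun n => ∀ p, p.Prime → p ∣ n → p ≤ 2 ^ h),
      i * log 2 ≤ ∑ p ∈ P, (n.factorization p : ℝ) * log p := by
    intro n hn
    obtain ⟨h1, h2⟩ := mem_filter.1 hn
    rw [mem_Ioc] at h1
    calc i * log 2 = log ((2 ^ i : ℕ) : ℝ) := by push_cast; rw [log_pow]
      _ ≤ log n := log_le_log (by positivity) (by exact_mod_cast h1.1.le)
      _ = ∑ p ∈ n.primeFactors, (n.factorization p : ℝ) * log p := by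
          rw [Real.log_nat_eq_sum_factorization]; rfl
      _ ≤ _ := by
          refine sum_le_sum_of_subset_of_nonneg (fun p hp => ?_) fun p _ _ =>
            mul_nonneg (Nat.cast_nonneg _) (log_natCast_nonneg p)
          exact Nat.mem_primesLE.2 ⟨h2 p (Nat.prime_of_mem_primeFactors hp)
            (Nat.dvd_of_mem_primeFactors hp), Nat.prime_of_mem_primeFactors hp⟩
  have h2 : ∀ p ∈ P, ∑ n ∈ Ioc 0 N, (n.factorization p : ℝ) * log p ≤ 2 * N * (log p / p) := by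
    intro p hp
    have hp' := Nat.prime_of_mem_primesLE hp
    have h3 : ∑ n ∈ Ioc 0 N, n.factorization p = N.factorial.factorization p := by
      have : N.factorial = ∏ n ∈ Ioc 0 N, n := by
        rw [← prod_Ico_id_eq_factorial]; rfl
      rw [this, Nat.factorization_prod_apply fun n hn => (mem_Ioc.1 hn).1.ne']
    have h4 := Nat.factorization_factorial_le_div_pred hp' N
    have h5 : (2 : ℝ) ≤ p := by exact_mod_cast hp'.two_le
    have h6 : ((N.factorial.factorization p : ℕ) : ℝ) ≤ 2 * N / p := by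
      calc _ ≤ ((N / (p - 1) : ℕ) : ℝ) := by exact_mod_cast h4
        _ ≤ (N : ℝ) / ((p - 1 : ℕ) : ℝ) := Nat.cast_div_le
        _ = N / ((p : ℝ) - 1) := by rw [Nat.cast_sub hp'.one_le, Nat.cast_one]
        _ ≤ _ := by
            rw [div_le_div_iff₀ (by linarith) (by linarith)]
            have : (0 : ℝ) ≤ N := Nat.cast_nonneg _
            nlinarith
    rw [← sum_mul, ← Nat.cast_sum, h3]
    calc _ ≤ 2 * N / p * log p := mul_le_mul_of_nonneg_right h6 (log_natCast_nonneg p)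
      _ = _ := by ring
  have h3 := sum_log_div_le (N := 2 ^ h) Nat.one_le_two_pow
  have h4 : log ((2 ^ h : ℕ) : ℝ) + log 4 = (h + 2) * log 2 := by
    rw [show (4 : ℝ) = 2 ^ 2 by norm_num]; push_cast; rw [log_pow, log_pow]; push_cast; ring
  have h5 := card_nsmul_le_sum _ _ _ h1
  rw [nsmul_eq_mul] at h5
  have h6 : ∑ n ∈ (Ioc (2 ^ i) N).filter (fun n => ∀ p, p.Prime → p ∣ n → p ≤ 2 ^ h),
      ∑ p ∈ P, (n.factorization p : ℝ) * log p ≤ 2 * N * ((h + 2) * log 2) := by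
    calc _ ≤ ∑ n ∈ Ioc 0 N, ∑ p ∈ P, (n.factorization p : ℝ) * log p := by
          refine sum_le_sum_of_subset_of_nonneg ((filter_subset _ _).trans
            (Ioc_subset_Ioc_left (Nat.zero_le _))) fun n _ _ => sum_nonneg fun p _ =>
            mul_nonneg (Nat.cast_nonneg _) (log_natCast_nonneg p)
      _ ≤ ∑ p ∈ P, 2 * N * (log p / p) := by rw [sum_comm]; exact sum_le_sum h2
      _ ≤ _ := by rw [← mul_sum, ← h4]; exact mul_le_mul_of_nonneg_left h3 (by positivity)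
  have h7 := h5.trans h6
  have h8 : (N : ℝ) = 2 * 2 ^ i := by rw [hN]; push_cast; ring
  rw [h8] at h7
  apply le_of_mul_le_mul_right _ (show 0 < log 2 by linarith)
  linarith

open Classical in
theorem card_weight_le (N j : ℕ) :
    (((Ioc 0 N).filter (fun n => ¬ Sq (2 ^ j) n ∧
      exp (0.59 * j) * cw (ha (2 ^ j) (2 ^ 2 ^ j)) n < 1)).card : ℝ) ≤
      exp 3 * N * exp (-(0.007 * j)) := by
  set Q := Nat.primesLE (2 ^ 2 ^ j) with hQ
  have hQp : ∀ p ∈ Q, p.Prime := fun p hp => Nat.prime_of_mem_primesLE hp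
  have h1 : ∀ n ∈ (Ioc 0 N).filter (fun n => ¬ Sq (2 ^ j) n ∧
      exp (0.59 * j) * cw (ha (2 ^ j) (2 ^ 2 ^ j)) n < 1),
      exp (0.295 * j) ≤ ∏ _p ∈ Q.filter (fun p => p ∣ n), (1 + 0.4143 : ℝ) := by
    intro n hn
    obtain ⟨h1, h2, h3⟩ := mem_filter.1 hn
    have hn0 := (mem_Ioc.1 h1).1.ne'
    have h4 : Q.filter (fun p => p ∣ n) = n.primeFactors.filter (fun p => p ≤ 2 ^ 2 ^ j) := by
      ext p
      simp only [hQ, mem_filter, Nat.mem_primesLE, Nat.mem_primeFactors]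
      tauto
    have h5 : ((1 : ℝ) / 2) ^ (Q.filter (fun p => p ∣ n)).card ≤
        cw (ha (2 ^ j) (2 ^ 2 ^ j)) n := by
      rw [h4, cw_eq_prod, ← prod_const, prod_filter]
      refine prod_le_prod (fun p _ => by split_ifs <;> norm_num) fun p hp => ?_
      have hp' := Nat.prime_of_mem_primeFactors hp
      unfold ha
      by_cases h6 : 2 ^ j < p ∧ p ≤ 2 ^ 2 ^ j
      · have h7 : n.factorization p ≤ 1 := by
          by_contra h7
          exact h2 ⟨p, h6.1, Or.inr ((hp'.pow_dvd_iff_le_factorization hn0).2 (by omega))⟩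
        rw [if_pos h6, if_pos h6.2]
        calc (1 / 2 : ℝ) = (1 / 2) ^ 1 := by norm_num
          _ ≤ _ := pow_le_pow_of_le_one (by norm_num) (by norm_num) h7
      · rw [if_neg h6, one_pow]; split_ifs <;> norm_num
    rw [prod_const]
    generalize (Q.filter (fun p => p ∣ n)).card = w at h5
    have h6 : exp (0.59 * j) * (1 / 2) ^ w < 1 :=
      lt_of_le_of_lt (mul_le_mul_of_nonneg_left h5 (exp_pos _).le) h3
    rw [div_pow, one_pow, mul_one_div, div_lt_one (by positivity)] at h6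
    refine le_of_sq_le_sq ?_ (by positivity)
    rw [← exp_nat_mul, ← pow_mul, mul_comm w 2, pow_mul]
    calc _ = exp (0.59 * j) := by congr 1; push_cast; ring
      _ ≤ 2 ^ w := h6.le
      _ ≤ _ := pow_le_pow_left₀ (by norm_num) (by norm_num) _
  have h2 := card_nsmul_le_sum _ _ _ h1
  rw [nsmul_eq_mul] at h2
  have h3 := sum_prod_one_add_le Q hQp (fun _ => 0.4143) (fun _ _ => by norm_num) N
  have hY : 2 ≤ 2 ^ 2 ^ j := le_trans (by norm_num)
    (Nat.pow_le_pow_right (by norm_num) (Nat.one_le_two_pow : 1 ≤ 2 ^ j))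
  have h4 := sum_inv_primes_le hY
  have l2 := log_two_gt_d9
  have l3 := log_two_lt_d9
  have hj0 : (0 : ℝ) ≤ j := Nat.cast_nonneg _
  have h5 : log (log ((2 ^ 2 ^ j : ℕ) : ℝ)) ≤ 0.6932 * j := by
    have : log ((2 ^ 2 ^ j : ℕ) : ℝ) = (2 : ℝ) ^ j * log 2 := by
      push_cast; rw [log_pow]; push_cast; ring
    rw [this]
    calc _ ≤ log ((2 : ℝ) ^ j) :=
          log_le_log (by positivity) (mul_le_of_le_one_right (by positivity) (by linarith))
      _ ≤ _ := by rw [log_pow]; nlinarith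
  have h6 : ∏ p ∈ Q, (1 + (0.4143 : ℝ) / p) ≤ exp (0.288 * j + 3) := by
    calc _ ≤ ∏ p ∈ Q, exp (0.4143 * (1 / (p : ℝ))) :=
          prod_le_prod (fun p _ => by positivity) fun p _ => by
            rw [mul_one_div, add_comm]; exact add_one_le_exp _
      _ ≤ _ := by
          rw [← exp_sum, ← mul_sum]
          exact exp_le_exp.2 (by nlinarith)
  have h7 := h2.trans ((sum_le_sum_of_subset_of_nonneg (filter_subset _ _) fun n _ _ =>
    prod_nonneg fun _ _ => by norm_num).trans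
      (h3.trans (mul_le_mul_of_nonneg_left h6 (Nat.cast_nonneg _))))
  apply le_of_mul_le_mul_right _ (exp_pos (0.295 * j))
  refine h7.trans (le_of_eq ?_)
  rw [mul_assoc, ← exp_add, mul_comm (exp 3), mul_assoc, ← exp_add]
  congr 2; ring

open Classical in
theorem card_many_dvd_le (N j : ℕ) :
    (((Ioc 0 N).filter (fun n =>
      exp (0.03 * j) < (((Ioc 0 (2 ^ j)).filter (fun d => d ∣ n)).card : ℝ))).card : ℝ) ≤
      N * (((j : ℝ) + 1) * exp (-(0.03 * j))) := by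
  have h1 := card_nsmul_le_sum ((Ioc 0 N).filter (fun n =>
      exp (0.03 * j) < (((Ioc 0 (2 ^ j)).filter (fun d => d ∣ n)).card : ℝ)))
      (fun n => (((Ioc 0 (2 ^ j)).filter (fun d => d ∣ n)).card : ℝ)) (exp (0.03 * j))
      (fun n hn => (mem_filter.1 hn).2.le)
  rw [nsmul_eq_mul] at h1
  have h2 : ∑ n ∈ Ioc 0 N, (((Ioc 0 (2 ^ j)).filter (fun d => d ∣ n)).card : ℝ) ≤
      N * ((j : ℝ) + 1) := by
    have h3 : ∑ n ∈ Ioc 0 N, (((Ioc 0 (2 ^ j)).filter (fun d => d ∣ n)).card : ℝ) =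
        ∑ d ∈ Ioc 0 (2 ^ j), (((Ioc 0 N).filter (fun n => d ∣ n)).card : ℝ) := by
      simp only [card_filter]
      push_cast
      exact sum_comm
    rw [h3]
    refine (sum_le_sum fun d _ => card_filter_dvd_le N d).trans ?_
    simp only [div_eq_mul_one_div (N : ℝ)]
    rw [← mul_sum]
    refine mul_le_mul_of_nonneg_left ((sum_inv_Ioc_le _).trans ?_) (Nat.cast_nonneg _)
    have := log_two_pow_le j
    linarith
  have h3 := h1.trans ((sum_le_sum_of_subset_of_nonneg (filter_subset _ _) fun n _ _ =>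
    Nat.cast_nonneg _).trans h2)
  apply le_of_mul_le_mul_right _ (exp_pos (0.03 * j))
  refine h3.trans (le_of_eq ?_)
  rw [mul_assoc, mul_assoc, ← exp_add, neg_add_cancel, exp_zero, mul_one]

open Classical in
theorem card_smooth_dvd_le (Y : ℕ) {ε : ℝ} (hε : 0 < ε) : ∃ B : ℕ, 0 < B ∧ ∀ N : ℕ,
    (((Ioc 0 N).filter (fun n => ∃ b, b ∣ n ∧ B < b ∧
      ∀ p, p.Prime → p ∣ b → p ≤ Y)).card : ℝ) ≤ ε * N := by
  set A := ∏ p ∈ Nat.primesLE Y, (1 - 1 / √(p : ℝ))⁻¹ with hA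
  obtain ⟨B, hB⟩ := exists_nat_gt ((A / ε) ^ 2)
  have hB0 : (0 : ℝ) < B := lt_of_le_of_lt (sq_nonneg _) hB
  refine ⟨B, by exact_mod_cast hB0, fun N => ?_⟩
  set D := (Ioc B N).filter (fun b => ∀ p, p.Prime → p ∣ b → p ≤ Y) with hD
  have h1 : (Ioc 0 N).filter (fun n => ∃ b, b ∣ n ∧ B < b ∧ ∀ p, p.Prime → p ∣ b → p ≤ Y) ⊆
      (Ioc 0 N).filter (fun n => ∃ b ∈ D, id b ∣ n) := by
    intro n hn
    obtain ⟨h1, b, h2, h3, h4⟩ := mem_filter.1 hn
    have h5 := mem_Ioc.1 h1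
    exact mem_filter.2 ⟨h1, b, mem_filter.2 ⟨mem_Ioc.2 ⟨h3, (Nat.le_of_dvd h5.1 h2).trans h5.2⟩,
      h4⟩, h2⟩
  have h2 := card_exists_dvd_le N D id
  have h3 : ∑ b ∈ D, 1 / √(b : ℝ) ≤ A := by
    refine sum_le_prod_inv (fun b => 1 / √(b : ℝ)) (fun _ => by positivity) (by simp)
      (fun a b => ?_) _ (fun q hq => ?_) D fun b hb => ?_
    · push_cast
      rw [sqrt_mul (Nat.cast_nonneg _), one_div_mul_one_div]
    · have h4 : (1 : ℝ) < q := by exact_mod_cast (Nat.prime_of_mem_primesLE hq).one_lt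
      have h5 : 1 < √(q : ℝ) := by rwa [lt_sqrt (by norm_num), one_pow]
      rwa [div_lt_one (by linarith)]
    · obtain ⟨h4, h5⟩ := mem_filter.1 hb
      have h6 := (mem_Ioc.1 h4).1
      exact mem_closure_of_primes (by omega) fun p hp hpb =>
        mem_coe.2 (Nat.mem_primesLE.2 ⟨h5 p hp hpb, hp⟩)
  have hs : 0 < √(B : ℝ) := sqrt_pos.2 hB0
  have h4 : ∑ b ∈ D, 1 / ((id b : ℕ) : ℝ) ≤ 1 / √(B : ℝ) * A := by
    refine le_trans ?_ (mul_le_mul_of_nonneg_left h3 (by positivity))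
    rw [mul_sum]
    refine sum_le_sum fun b hb => ?_
    have h5 : (B : ℝ) ≤ b := by exact_mod_cast (mem_Ioc.1 (mem_filter.1 hb).1).1.le
    have h6 : √(B : ℝ) ≤ √(b : ℝ) := sqrt_le_sqrt h5
    rw [one_div_mul_one_div, id]
    refine one_div_le_one_div_of_le (mul_pos hs (hs.trans_le h6)) ?_
    calc _ ≤ √(b : ℝ) * √(b : ℝ) := mul_le_mul_of_nonneg_right h6 (sqrt_nonneg _)
      _ = b := mul_self_sqrt (Nat.cast_nonneg _)
  have h5 : 1 / √(B : ℝ) * A ≤ ε := by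
    have h6 : A / ε ≤ √(B : ℝ) := le_sqrt_of_sq_le hB.le
    rw [div_le_iff₀ hε] at h6
    rw [one_div_mul_eq_div, div_le_iff₀ hs]
    linarith
  calc _ ≤ (((Ioc 0 N).filter (fun n => ∃ b ∈ D, id b ∣ n)).card : ℝ) := by
        exact_mod_cast card_le_card h1
    _ ≤ N * ε := h2.trans (mul_le_mul_of_nonneg_left (h4.trans h5) (Nat.cast_nonneg _))
    _ = _ := mul_comm _ _

theorem tail_small {ε : ℝ} (hε : 0 < ε) : ∃ j₀ : ℕ, 120 ≤ j₀ ∧ 1 / (2 : ℝ) ^ j₀ ≤ ε ∧ ∀ J : ℕ,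
    ∑ j ∈ Ioc j₀ J, ((j : ℝ) + 1) ^ 6 * exp (-(0.007 * j)) ≤ ε := by
  have h1 : Summable fun j : ℕ => ((j : ℝ) + 1) ^ 6 * exp (-(0.007 * j)) := by
    have h2 := summable_pow_mul_exp_neg_nat_mul 6 (r := 0.007) (by norm_num)
    have h3 := (summable_nat_add_iff 1).2 h2
    refine (h3.mul_left (exp 0.007)).congr fun j => ?_
    push_cast
    rw [mul_left_comm, ← exp_add]
    congr 2; ring
  have h2 := (tendsto_sum_nat_add fun j : ℕ => ((j : ℝ) + 1) ^ 6 * exp (-(0.007 * j))).eventually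
    (ge_mem_nhds hε)
  have h3 := (tendsto_pow_atTop_nhds_zero_of_lt_one (r := (1 / 2 : ℝ)) (by norm_num)
    (by norm_num)).eventually (ge_mem_nhds hε)
  obtain ⟨j₀, h4, h5, h6⟩ := ((eventually_ge_atTop 120).and (h3.and h2)).exists
  refine ⟨j₀, h4, by simpa using h5, fun J => le_trans ?_ h6⟩
  have h7 := (summable_nat_add_iff j₀).2 h1
  refine le_trans ?_ (h7.sum_le_tsum (range (J + 1)) fun _ _ => by positivity)
  have h8 : Ioc j₀ J ⊆ (range (J + 1)).image (fun k => k + j₀) := fun j hj => by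
    rw [mem_Ioc] at hj
    exact mem_image.2 ⟨j - j₀, mem_range.2 (by omega), by omega⟩
  refine (sum_le_sum_of_subset_of_nonneg h8 fun _ _ _ => by positivity).trans ?_
  rw [sum_image fun a _ b _ hab => by simpa using hab]

end Pool.Agent.P.MP_01fe58_nt
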