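import Pool.Agent.Lib.Sieve.ClassOne

/-!
For at least half of the moduli `s ≤ K` the residue class one contains its share of primes
between `exp (K / 5)` and `exp (7 K)`.
-/

namespace Pool.Agent.P.MP_01fe58_nt

open Finset Real LSeries Filter Pool.Agent.Lib.Sieve
open ArithmeticFunction (vonMangoldt vonMangoldt_nonneg vonMangoldt_le_log)

theorem good_moduli {m : ℕ} (hm : 1 ≤ m) {A : ℝ} (hA : A = 3 * log (((6 * m) ^ 2 : ℕ) : ℝ) ^ 3) :
    ∃ G ⊆ Ioc 0 (6 * m), 3 * m ≤ G.card ∧ ∀ s ∈ G, ∀ σ : ℝ, 1 < σ → σ ≤ 1 + 1 / (8 * A ^ 3) →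
      ∀ χ : DirichletCharacter ℂ s, χ ≠ 1 → ‖LSeries (logMul (cv χ)) σ‖ ≤ 65 * A ^ 6 := by
  classical
  set M := (6 * m) ^ 2 with hM
  have hM8 : 8 ≤ M := by rw [hM]; nlinarith
  have hl := two_le_log hM8
  have hA1 : 1 ≤ A := by
    have : (2 : ℝ) ^ 3 ≤ log M ^ 3 := by gcongr
    rw [hA]; linarith
  set κ := 1 / (8 * A ^ 3) with hκ
  have hκ0 : 0 < κ := by positivity
  have hκ1 : κ ≤ 1 := by
    rw [hκ, div_le_one (by positivity)]
    have : 1 ≤ A ^ 3 := one_le_pow₀ hA1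
    linarith
  let Good : ℕ → Prop := fun s => ∀ χ : DirichletCharacter ℂ s, χ ≠ 1 →
    1 ≤ 4 * A ^ 2 * ‖LSeries (cs χ) (1 + κ : ℝ)‖
  have hpair : ∀ i < 3 * m, Good (2 * i + 1) ∨ Good (2 * i + 2) := by
    intro i hi
    by_contra hc
    simp only [Good, not_or, not_forall, not_le] at hc
    obtain ⟨⟨χ, hχ, h1⟩, ⟨ψ, -, h2⟩⟩ := hc
    have hco : (2 * i + 1).Coprime (2 * i + 2) := by
      rw [show 2 * i + 2 = 1 + (2 * i + 1) by ring]; simp
    have h3 := product_ge_one hco hχ ψ hM8 (by rw [hM]; nlinarith) hκ0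
    rw [← hA] at h3
    set a := ‖LSeries (cs χ) (1 + κ : ℝ)‖
    set b := ‖LSeries (cs ψ) (1 + κ : ℝ)‖
    have ha : 0 ≤ a := norm_nonneg _
    have hb : 0 ≤ b := norm_nonneg _
    have h4 : 1 + 1 / κ ≤ 16 * A ^ 3 := by
      rw [hκ, one_div_one_div]
      have : 1 ≤ A ^ 3 := one_le_pow₀ hA1
      linarith
    have h5 : (4 * A ^ 2 * a) * (4 * A ^ 2 * b) < 1 :=
      mul_lt_one_of_nonneg_of_lt_one_left (by positivity) h1 h2.le
    have h6 : (1 + 1 / κ) * a * b * A ≤ 16 * A ^ 3 * a * b * A := by gcongr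
    have h7 : 16 * A ^ 3 * a * b * A = (4 * A ^ 2 * a) * (4 * A ^ 2 * b) := by ring
    linarith
  refine ⟨(Ioc 0 (6 * m)).filter Good, filter_subset _ _, ?_, ?_⟩
  · have := card_le_card_of_injOn (s := range (3 * m)) (t := (Ioc 0 (6 * m)).filter Good)
      (fun i => if Good (2 * i + 1) then 2 * i + 1 else 2 * i + 2) ?_ ?_
    · simpa using this
    · intro i hi
      have hi' : i < 3 * m := by simpa using hi
      simp only [coe_filter, mem_Ioc, Set.mem_ofPred_eq]
      split_ifs with h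
      · exact ⟨⟨by omega, by omega⟩, h⟩
      · exact ⟨⟨by omega, by omega⟩, (hpair i hi').resolve_left h⟩
    · intro i _ j _ hij
      simp only at hij
      split_ifs at hij <;> omega
  · intro s hs σ h1 h2 χ hχ
    rw [mem_filter, mem_Ioc] at hs
    have : NeZero s := ⟨hs.1.1.ne'⟩
    have hsM : s ≤ M := by rw [hM]; nlinarith [hs.1.2]
    have h3 := hs.2 χ hχ
    have h4 := norm_D0_sub_le hχ hM8 hsM h1 h2
    rw [← hA] at h4
    have h5 : ‖LSeries (cs χ) (1 + κ : ℝ)‖ ≤ ‖LSeries (cs χ) σ‖ + A * κ := by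
      have h6 := norm_le_norm_add_norm_sub' (LSeries (cs χ) (1 + κ : ℝ)) (LSeries (cs χ) σ)
      have h7 : A * (1 + κ - σ) ≤ A * κ := by gcongr; linarith
      linarith
    have h6 : 1 ≤ 8 * A ^ 2 * ‖LSeries (cs χ) σ‖ := by
      have h7 : 4 * A ^ 2 * (A * κ) = 1 / 2 := by rw [hκ]; field_simp; norm_num
      have h8 : 4 * A ^ 2 * ‖LSeries (cs χ) (1 + κ : ℝ)‖ ≤
          4 * A ^ 2 * (‖LSeries (cs χ) σ‖ + A * κ) := by gcongr
      linarith
    have h7 := norm_P2_le hχ hM8 hsM h1 (by positivity) h6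
    rw [← hA] at h7
    have h8 : A ^ 3 ≤ A ^ 6 / 8 := by
      have h9 : 24 ≤ A := by
        have : (2 : ℝ) ^ 3 ≤ log M ^ 3 := by gcongr
        rw [hA]; linarith
      have h10 : 8 ≤ A ^ 3 := le_trans (by linarith) (le_self_pow₀ hA1 (by norm_num))
      have : A ^ 6 = A ^ 3 * A ^ 3 := by ring
      rw [this, le_div_iff₀ (by norm_num)]
      gcongr
    calc _ ≤ A * (8 * A ^ 2) + (A * (8 * A ^ 2)) ^ 2 := h7
      _ = 8 * A ^ 3 + 64 * A ^ 6 := by ring
      _ ≤ _ := by linarith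

theorem p2_eq {K τ : ℝ} {n : ℕ} (hn : n ≠ 0) :
    p2 (1 + τ / K) n = vonMangoldt n * log n / n * exp (-(τ * (log n / K))) := by
  have hn' : (0 : ℝ) < n := by positivity
  rw [p2, wk, neg_add, rpow_add hn', rpow_neg_one, rpow_def_of_pos hn']
  rw [show log n * -(τ / K) = -(τ * (log n / K)) by ring]
  ring

theorem localize {m : ℕ} (hm : 1 ≤ m) (s n : ℕ) :
    clsOne s (1 + 1 / (6 * m : ℕ)) n - exp 1 * clsOne s (1 + 4 / (6 * m : ℕ)) n -
      exp (-3) * clsOne s (1 + (1 / 2) / (6 * m : ℕ)) n ≤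
    if n ∈ (Ioc (2 ^ (2 * m)) (2 ^ (54 * m))).filter (fun n : ℕ => (n : ZMod s) = 1) then
      vonMangoldt n * log n / n else 0 := by
  have hm' : (1 : ℝ) ≤ m := by exact_mod_cast hm
  by_cases h1 : (n : ZMod s) = 1
  swap
  · simp [clsOne, h1]
  rcases eq_or_ne n 0 with rfl | hn
  · simp [clsOne, p2]
  simp only [clsOne, h1, if_true, p2_eq hn, mem_filter, and_true, mem_Ioc]
  have hn' : (0 : ℝ) < n := by positivity
  have ha : 0 ≤ vonMangoldt n * log n / n :=
    div_nonneg (mul_nonneg vonMangoldt_nonneg (log_natCast_nonneg n)) hn'.le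
  set a := vonMangoldt n * log n / n
  set u := log n / (6 * m : ℕ) with hu
  have hK : (0 : ℝ) < (6 * m : ℕ) := by positivity
  have hu0 : 0 ≤ u := div_nonneg (log_natCast_nonneg n) hK.le
  have h2 : exp (-(1 * u)) ≤ 1 := exp_le_one_iff.2 (by linarith)
  have h3 : 0 < exp 1 * exp (-(4 * u)) := by positivity
  have h4 : 0 < exp (-3) * exp (-(1 / 2 * u)) := by positivity
  have key : a * exp (-(1 * u)) - exp 1 * (a * exp (-(4 * u))) -
      exp (-3) * (a * exp (-(1 / 2 * u))) =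
      a * (exp (-(1 * u)) - exp 1 * exp (-(4 * u)) - exp (-3) * exp (-(1 / 2 * u))) := by ring
  rw [key]
  split_ifs with h
  · exact mul_le_of_le_one_right ha (by linarith)
  · apply mul_nonpos_of_nonneg_of_nonpos ha
    rw [not_and_or, not_lt, not_le] at h
    have l1 := log_two_gt_d9
    have l2 := log_two_lt_d9
    rcases h with h | h
    · have h5 : log n ≤ 2 * m * log 2 := by
        calc log n ≤ log ((2 : ℝ) ^ (2 * m)) := log_le_log hn' (by exact_mod_cast h)
          _ = _ := by rw [log_pow]; push_cast; ring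
      have h6 : u ≤ 1 / 4 := by
        rw [hu, div_le_iff₀ hK]; push_cast; nlinarith
      have h7 : 1 ≤ exp 1 * exp (-(4 * u)) := by
        rw [← exp_add]; exact one_le_exp (by linarith)
      linarith
    · have h5 : 54 * m * log 2 ≤ log n := by
        calc 54 * m * log 2 = log ((2 : ℝ) ^ (54 * m)) := by rw [log_pow]; push_cast; ring
          _ ≤ log n := log_le_log (by positivity) (by exact_mod_cast h.le)
      have h6 : 6 ≤ u := by
        rw [hu, le_div_iff₀ hK]; push_cast; nlinarith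
      have h7 : exp (-(1 * u)) ≤ exp (-3) * exp (-(1 / 2 * u)) := by
        rw [← exp_add]; exact exp_le_exp.2 (by linarith)
      linarith

theorem eventually_log_pow_le (k : ℕ) {ε : ℝ} (hε : 0 < ε) :
    ∀ᶠ x : ℝ in atTop, log x ^ k ≤ ε * x := by
  filter_upwards [(isLittleO_pow_log_id_atTop (n := k)).bound hε, eventually_ge_atTop 1]
    with x hx h1
  rw [Real.norm_of_nonneg (pow_nonneg (log_nonneg h1) _), id,
    Real.norm_of_nonneg (by linarith)] at hx
  exact hx

theorem first_moment : ∀ᶠ m : ℕ in atTop, ∃ G ⊆ Ioc 0 (6 * m), 3 * m ≤ G.card ∧ ∀ s ∈ G,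
    ((6 * m : ℕ) : ℝ) ^ 2 / (2 * s) ≤
      ∑ n ∈ (Ioc (2 ^ (2 * m)) (2 ^ (54 * m))).filter (fun n : ℕ => (n : ZMod s) = 1),
        vonMangoldt n * log n / n := by
  obtain ⟨C, hC⟩ := zeta_P2
  have ht : Tendsto (fun m : ℕ => ((6 * m : ℕ) : ℝ)) atTop atTop :=
    tendsto_natCast_atTop_atTop.comp (tendsto_id.const_mul_atTop' (by norm_num))
  filter_upwards [ht.eventually (eventually_log_pow_le 18 (ε := 1 / (300 * 65 * 24 ^ 6))
    (by positivity)), ht.eventually (eventually_ge_atTop (300 * |C| + 8)),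
    eventually_ge_atTop 2] with m h1 h2 hm
  obtain ⟨G, hG, hcard, hgood⟩ := good_moduli (m := m) (by omega) rfl
  refine ⟨G, hG, hcard, fun s hs => ?_⟩
  set K : ℝ := ((6 * m : ℕ) : ℝ) with hK
  have hK8 : (8 : ℝ) ≤ K := by have := abs_nonneg C; linarith
  have hlK : 2 ≤ log K := two_le_log (by omega)
  set A := 3 * log (((6 * m) ^ 2 : ℕ) : ℝ) ^ 3 with hA
  have hA' : A = 24 * log K ^ 3 := by
    rw [hA, Nat.cast_pow, log_pow]; push_cast; rw [hK]; push_cast; ring
  have hs' := mem_Ioc.1 (hG hs)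
  have : NeZero s := ⟨hs'.1.ne'⟩
  have hs0 : (0 : ℝ) < s := by exact_mod_cast hs'.1
  have hsK : (s : ℝ) ≤ K := by rw [hK]; exact_mod_cast hs'.2
  have hA6 : 65 * A ^ 6 ≤ K / 300 := by
    rw [hA', mul_pow, ← pow_mul]
    calc 65 * (24 ^ 6 * log K ^ (3 * 6)) ≤ 65 * (24 ^ 6 * (1 / (300 * 65 * 24 ^ 6) * K)) := by
          gcongr
      _ = _ := by field_simp
  have hA1 : 192 ≤ A := by
    have : (2 : ℝ) ^ 3 ≤ log K ^ 3 := by gcongr
    rw [hA']; linarith
  have hA3 : 32 * A ^ 3 ≤ K := by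
    have : A ^ 3 ≤ A ^ 6 := pow_le_pow_right₀ (by linarith) (by norm_num)
    have : 0 ≤ A ^ 6 := by positivity
    linarith
  have hlog : 8 * log K ≤ K / 300 := by
    have h3 : log K ≤ log K ^ 3 := le_self_pow₀ (by linarith) (by norm_num)
    have h4 : A ≤ A ^ 6 := le_self_pow₀ (by linarith) (by norm_num)
    linarith
  have main : ∀ τ : ℝ, 0 < τ → τ ≤ 4 →
      |s.totient * ∑' n, clsOne s (1 + τ / K) n - K ^ 2 / τ ^ 2| ≤ K ^ 2 / 100 := by
    intro τ h3 h4
    have h5 : 0 < τ / K := by positivity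
    have h6 : τ / K ≤ 1 / (8 * A ^ 3) := by
      rw [div_le_div_iff₀ (by linarith) (by positivity)]
      have : τ * (8 * A ^ 3) ≤ 4 * (8 * A ^ 3) := by gcongr
      linarith
    have h7 : τ / K ≤ 1 := by rw [div_le_one (by linarith)]; linarith
    have h8 := abs_clsOne_sub_le (s := s) (σ := 1 + τ / K) (by linarith) (by positivity)
      (hgood s hs (1 + τ / K) (by linarith) (by linarith))
    have h9 := hC (1 + τ / K) (by linarith) (by linarith)
    have h10 : 1 / (1 + τ / K - 1) ^ 2 = K ^ 2 / τ ^ 2 := by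
      rw [add_sub_cancel_left]; field_simp
    rw [h10] at h9
    have h11 : s * (65 * A ^ 6) ≤ K * (K / 300) := by gcongr
    have h12 : 8 * s * log s ≤ K * (K / 300) := by
      have h13 : log s ≤ log K := log_le_log hs0 hsK
      have h14 : 0 ≤ log s := log_natCast_nonneg s
      calc 8 * s * log s = s * (8 * log s) := by ring
        _ ≤ K * (K / 300) := by gcongr; linarith
    have h13 : C ≤ K * (K / 300) := by
      have := le_abs_self C
      nlinarith
    rw [abs_le] at h8 h9 ⊢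
    constructor <;> nlinarith [h8.1, h8.2, h9.1, h9.2]
  have e1 := abs_le.1 (main 1 (by norm_num) (by norm_num))
  have e2 := abs_le.1 (main 4 (by norm_num) (by norm_num))
  have e3 := abs_le.1 (main (1 / 2) (by norm_num) (by norm_num))
  have q1 : K ^ 2 / 1 ^ 2 = K ^ 2 := by ring
  have q3 : K ^ 2 / (1 / 2) ^ 2 = 4 * K ^ 2 := by ring
  rw [q1] at e1
  rw [q3] at e3
  have hpos : ∀ τ : ℝ, 0 < τ → 1 < 1 + τ / K := fun τ h => by
    have : 0 < τ / K := by positivity
    linarith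
  have hsum := (((summable_clsOne s (hpos 1 (by norm_num))).hasSum.sub
    ((summable_clsOne s (hpos 4 (by norm_num))).hasSum.mul_left (exp 1))).sub
    ((summable_clsOne s (hpos (1 / 2) (by norm_num))).hasSum.mul_left (exp (-3))))
  set T := (Ioc (2 ^ (2 * m)) (2 ^ (54 * m))).filter (fun n : ℕ => (n : ZMod s) = 1)
  have hfin : HasSum (fun n : ℕ => if n ∈ T then vonMangoldt n * log n / n else 0)
      (∑ n ∈ T, vonMangoldt n * log n / n) := by
    have := hasSum_sum_of_ne_finset_zero (L := SummationFilter.unconditional ℕ)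
      (f := fun n : ℕ => if n ∈ T then vonMangoldt n * log n / n else 0) (s := T)
      (fun n hn => if_neg hn)
    rwa [sum_congr rfl (fun n hn => if_pos hn)] at this
  have hle := hasSum_le (localize (by omega) s) hsum hfin
  set F1 := ∑' n, clsOne s (1 + 1 / K) n
  set F2 := ∑' n, clsOne s (1 + 4 / K) n
  set F3 := ∑' n, clsOne s (1 + (1 / 2) / K) n
  set R := ∑ n ∈ T, vonMangoldt n * log n / n
  have hφ : (s.totient : ℝ) ≤ s := by exact_mod_cast Nat.totient_le s
  have hφ0 : (0 : ℝ) ≤ s.totient := by positivity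
  have hR : 0 ≤ R := sum_nonneg fun n _ =>
    div_nonneg (mul_nonneg vonMangoldt_nonneg (log_natCast_nonneg n)) (by positivity)
  have he1 : exp 1 ≤ 2.72 := exp_one_lt_d9.le.trans (by norm_num)
  have he3 : exp (-3) ≤ 1 / 19 := by
    rw [exp_neg, inv_eq_one_div]
    apply one_div_le_one_div_of_le (by norm_num)
    have h3 : exp 3 = exp 1 ^ 3 := by rw [← exp_nat_mul]; norm_num
    have h4 := exp_one_gt_d9
    have h5 : 2.7182818283 ^ 3 ≤ exp 1 ^ 3 := by gcongr
    rw [h3]; refine le_trans (by norm_num) h5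
  have hK2 : 0 < K ^ 2 := by positivity
  have h3 : exp 1 * (s.totient * F2) ≤ 2.72 * (K ^ 2 / 4 ^ 2 + K ^ 2 / 100) := by
    apply mul_le_mul he1 (by linarith [e2.2]) _ (by norm_num)
    linarith [e2.1]
  have h4 : exp (-3) * (s.totient * F3) ≤ 1 / 19 * (4 * K ^ 2 + K ^ 2 / 100) := by
    apply mul_le_mul he3 (by linarith [e3.2]) _ (by norm_num)
    linarith [e3.1]
  have h5 : s.totient * (F1 - exp 1 * F2 - exp (-3) * F3) ≤ s * R :=
    (mul_le_mul_of_nonneg_left hle hφ0).trans (mul_le_mul_of_nonneg_right hφ hR)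
  rw [div_le_iff₀ (by positivity)]
  have h6 : s.totient * (F1 - exp 1 * F2 - exp (-3) * F3) =
      s.totient * F1 - exp 1 * (s.totient * F2) - exp (-3) * (s.totient * F3) := by ring
  have h7 : R * (2 * s) = 2 * (s * R) := by ring
  rw [h7]
  linarith [e1.1]

end Pool.Agent.P.MP_01fe58_nt
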