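import Pool.Agent.P.MP_01fe58_nt.FirstMoment
import Pool.Agent.Lib.Sieve.Shifted

/-!
For a positive proportion of `n` in suitable dyadic intervals there is a prime `s * n + 1` with
`s = O (log n)`.
-/

namespace Pool.Agent.P.MP_01fe58_nt

open Finset Real Filter Pool.Agent.Lib.Sieve
open ArithmeticFunction (vonMangoldt vonMangoldt_nonneg vonMangoldt_le_log)

theorem sum_dyadic (f : ℕ → ℝ) (a k : ℕ) :
    ∑ c ∈ Ioc (2 ^ a) (2 ^ (a + k)), f c =
      ∑ j ∈ range k, ∑ c ∈ Ioc (2 ^ (a + j)) (2 ^ (a + j + 1)), f c := by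
  induction k with
  | zero => simp
  | succ k ih =>
    rw [sum_range_succ, ← ih, sum_Ioc_consecutive]
    · rfl
    · exact Nat.pow_le_pow_right (by norm_num) (by omega)
    · exact Nat.pow_le_pow_right (by norm_num) (by omega)

theorem six_mul_lt {m : ℕ} (hm : 5 ≤ m) : 6 * m < 2 ^ m := by
  induction m, hm using Nat.le_induction with
  | base => norm_num
  | succ k hk ih => rw [pow_succ]; omega

theorem class_to_shift {m s : ℕ} (hm : 5 ≤ m) (hs : s ∈ Ioc 0 (6 * m))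
    (h : ((6 * m : ℕ) : ℝ) ^ 2 / (2 * s) ≤
      ∑ n ∈ (Ioc (2 ^ (2 * m)) (2 ^ (54 * m))).filter (fun n : ℕ => (n : ZMod s) = 1),
        vonMangoldt n * log n / n) :
    (m : ℝ) / 3 ≤ ∑ c ∈ Ioc (2 ^ m) (2 ^ (m + 53 * m)), vonMangoldt (s * c + 1) / c := by
  classical
  have hs' := mem_Ioc.1 hs
  have hs0 : (0 : ℝ) < s := by exact_mod_cast hs'.1
  have hm0 : (5 : ℝ) ≤ m := by exact_mod_cast hm
  have h6 := six_mul_lt hm
  set T := (Ioc (2 ^ (2 * m)) (2 ^ (54 * m))).filter (fun n : ℕ => (n : ZMod s) = 1)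
  have hsub : T ⊆ (Ioc (2 ^ m) (2 ^ (m + 53 * m))).image (fun c => s * c + 1) := by
    intro n hn
    rw [mem_filter, mem_Ioc] at hn
    have h1 : 1 ≤ n := le_trans (Nat.one_le_two_pow) hn.1.1.le
    have h2 : n ≡ 1 [MOD s] := (ZMod.natCast_eq_natCast_iff _ _ _).1 (by simpa using hn.2)
    obtain ⟨c, hc⟩ := (Nat.modEq_iff_dvd' h1).1 h2.symm
    refine mem_image.2 ⟨c, mem_Ioc.2 ⟨?_, ?_⟩, by omega⟩
    · by_contra h3
      have h4 : s * c ≤ 6 * m * 2 ^ m := Nat.mul_le_mul hs'.2 (not_lt.1 h3)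
      have h5 : 6 * m * 2 ^ m < 2 ^ m * 2 ^ m := Nat.mul_lt_mul_of_pos_right h6 (by positivity)
      have h7 : 2 ^ (2 * m) = 2 ^ m * 2 ^ m := by rw [← pow_add]; congr 1; ring
      omega
    · have h4 : c ≤ s * c := Nat.le_mul_of_pos_left _ hs'.1
      rw [show m + 53 * m = 54 * m by ring]
      omega
  have h1 : ∑ n ∈ T, vonMangoldt n * log n / n ≤ 38 * m * ∑ n ∈ T, vonMangoldt n / n := by
    rw [mul_sum]
    refine sum_le_sum fun n hn => ?_
    rw [mem_filter, mem_Ioc] at hn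
    have h1 : 1 ≤ n := le_trans (Nat.one_le_two_pow) hn.1.1.le
    have hn' : (0 : ℝ) < n := by exact_mod_cast h1
    have h5 : log n ≤ 38 * m := by
      calc log n ≤ log ((2 : ℝ) ^ (54 * m)) := log_le_log hn' (by exact_mod_cast hn.1.2)
        _ = 54 * m * log 2 := by rw [log_pow]; push_cast; ring
        _ ≤ 38 * m := by have := log_two_lt_d9; nlinarith
    have : 0 ≤ vonMangoldt n / n := div_nonneg vonMangoldt_nonneg hn'.le
    calc vonMangoldt n * log n / n = log n * (vonMangoldt n / n) := by ring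
      _ ≤ _ := by gcongr
  have h2 : ∑ n ∈ T, vonMangoldt n / n ≤
      (1 / s) * ∑ c ∈ Ioc (2 ^ m) (2 ^ (m + 53 * m)), vonMangoldt (s * c + 1) / c := by
    refine (sum_le_sum_of_subset_of_nonneg hsub fun n _ _ =>
      div_nonneg vonMangoldt_nonneg (by positivity)).trans ?_
    rw [sum_image (fun a _ b _ hab => by
      simpa [hs'.1.ne'] using hab), mul_sum]
    refine sum_le_sum fun c hc => ?_
    have hc0 : (0 : ℝ) < c := by
      have : 0 < c := lt_of_le_of_lt (Nat.zero_le _) (mem_Ioc.1 hc).1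
      exact_mod_cast this
    have h3 : 0 ≤ vonMangoldt (s * c + 1) := vonMangoldt_nonneg
    calc vonMangoldt (s * c + 1) / ((s * c + 1 : ℕ) : ℝ) ≤ vonMangoldt (s * c + 1) / (s * c) := by
          gcongr; push_cast; linarith
      _ = _ := by field_simp
  set U := ∑ c ∈ Ioc (2 ^ m) (2 ^ (m + 53 * m)), vonMangoldt (s * c + 1) / c
  have h3 : ((6 * m : ℕ) : ℝ) ^ 2 / (2 * s) ≤ 38 * m * (1 / s * U) :=
    h.trans (h1.trans (by gcongr))
  have h4 : ((6 * m : ℕ) : ℝ) ^ 2 / (2 * s) = (m / s) * (18 * m) := by push_cast; field_simp; ring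
  have h5 : 38 * m * (1 / s * U) = (m / s) * (38 * U) := by ring
  rw [h4, h5] at h3
  have h7 := le_of_mul_le_mul_left h3 (by positivity)
  linarith

theorem exists_block : ∀ᶠ m : ℕ in atTop, ∃ i, m ≤ i ∧ i < 54 * m ∧
    (2 : ℝ) ^ i * m / 53 ≤
      ∑ c ∈ Ioc (2 ^ i) (2 ^ (i + 1)), ∑ s ∈ Ioc 0 (6 * m), vonMangoldt (s * c + 1) := by
  filter_upwards [first_moment, eventually_ge_atTop 5] with m h hm
  obtain ⟨G, hG, hcard, h⟩ := h
  have hm0 : (5 : ℝ) ≤ m := by exact_mod_cast hm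
  let V : ℕ → ℝ := fun c => ∑ s ∈ Ioc 0 (6 * m), vonMangoldt (s * c + 1)
  have hV : ∀ c, 0 ≤ V c := fun c => sum_nonneg fun _ _ => vonMangoldt_nonneg
  have h1 : (m : ℝ) * m ≤ ∑ c ∈ Ioc (2 ^ m) (2 ^ (m + 53 * m)), V c / c := by
    calc (m : ℝ) * m = (3 * m) * (m / 3) := by ring
      _ ≤ G.card * ((m : ℝ) / 3) := by gcongr; exact_mod_cast hcard
      _ = ∑ s ∈ G, (m : ℝ) / 3 := by simp
      _ ≤ ∑ s ∈ G, ∑ c ∈ Ioc (2 ^ m) (2 ^ (m + 53 * m)), vonMangoldt (s * c + 1) / c :=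
          sum_le_sum fun s hs => class_to_shift hm (hG hs) (h s hs)
      _ ≤ ∑ s ∈ Ioc 0 (6 * m), ∑ c ∈ Ioc (2 ^ m) (2 ^ (m + 53 * m)),
            vonMangoldt (s * c + 1) / c :=
          sum_le_sum_of_subset_of_nonneg hG fun s _ _ => sum_nonneg fun c _ =>
            div_nonneg vonMangoldt_nonneg (by positivity)
      _ = _ := by rw [sum_comm]; simp only [V, sum_div]
  rw [sum_dyadic] at h1
  have h2 : ∑ j ∈ range (53 * m), (m : ℝ) / 53 ≤
      ∑ j ∈ range (53 * m), ∑ c ∈ Ioc (2 ^ (m + j)) (2 ^ (m + j + 1)), V c / c := by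
    refine le_trans (le_of_eq ?_) h1
    simp; ring
  obtain ⟨j, hj, h3⟩ := exists_le_of_sum_le (nonempty_range_iff.2 (by omega)) h2
  refine ⟨m + j, by omega, by have := mem_range.1 hj; omega, ?_⟩
  have h4 : ∑ c ∈ Ioc (2 ^ (m + j)) (2 ^ (m + j + 1)), V c / c ≤
      (∑ c ∈ Ioc (2 ^ (m + j)) (2 ^ (m + j + 1)), V c) / 2 ^ (m + j) := by
    rw [sum_div]
    refine sum_le_sum fun c hc => ?_
    have : ((2 : ℝ) ^ (m + j)) ≤ c := by exact_mod_cast (mem_Ioc.1 hc).1.le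
    have := hV c
    gcongr
  have h5 := h3.trans h4
  rw [le_div_iff₀ (by positivity)] at h5
  linarith

/-- The number of `s ≤ K` with `s * c + 1` prime. -/
def cnt (K c : ℕ) : ℕ := ((Ioc 0 K).filter (fun s => (s * c + 1).Prime)).card

theorem first_count : ∀ᶠ m : ℕ in atTop, ∃ i, m ≤ i ∧ i < 54 * m ∧
    (2 : ℝ) ^ i / 4200 ≤ ∑ c ∈ Ioc (2 ^ i) (2 ^ (i + 1)), (cnt (6 * m) c : ℝ) := by
  obtain ⟨C, hC⟩ := Chebyshev.psi_sub_theta_le_mul_sqrt
  have ht := (tendsto_pow_const_div_const_pow_of_one_lt 1 (r := 2) (by norm_num)).eventually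
    (gt_mem_nhds (show (0 : ℝ) < 1 / (13 * (636 * |C| + 1) ^ 2) by positivity))
  filter_upwards [exists_block, eventually_ge_atTop 5, ht] with m h hm hm2
  obtain ⟨i, hi1, hi2, h⟩ := h
  refine ⟨i, hi1, hi2, ?_⟩
  have hm0 : (5 : ℝ) ≤ m := by exact_mod_cast hm
  have h6 := six_mul_lt hm
  set x : ℝ := 2 ^ i with hx
  have hx0 : 0 < x := by positivity
  have h1 : ∀ c ∈ Ioc (2 ^ i) (2 ^ (i + 1)), ∑ s ∈ Ioc 0 (6 * m), vonMangoldt (s * c + 1) ≤
      39 * m * cnt (6 * m) c +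
        ∑ s ∈ Ioc 0 (6 * m), if ¬ (s * c + 1).Prime then vonMangoldt (s * c + 1) else 0 := by
    intro c hc
    rw [← sum_filter_add_sum_filter_not _ (fun s => (s * c + 1).Prime), ← sum_filter]
    gcongr
    calc _ ≤ ∑ s ∈ (Ioc 0 (6 * m)).filter (fun s => (s * c + 1).Prime), (39 * m : ℝ) := by
          refine sum_le_sum fun s hs => vonMangoldt_le_log.trans ?_
          have h2 : s < 2 ^ m := lt_of_le_of_lt (mem_Ioc.1 (mem_filter.1 hs).1).2 h6
          have h3 : c ≤ 2 ^ (54 * m) :=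
            (mem_Ioc.1 hc).2.trans (Nat.pow_le_pow_right (by norm_num) (by omega))
          have h4 : s * c + 1 ≤ 2 ^ (55 * m) := by
            have h5 : s * c ≤ s * 2 ^ (54 * m) := Nat.mul_le_mul_left _ h3
            have h7 : s * 2 ^ (54 * m) < 2 ^ m * 2 ^ (54 * m) :=
              Nat.mul_lt_mul_of_pos_right h2 (by positivity)
            rw [← pow_add, show m + 54 * m = 55 * m by ring] at h7
            omega
          calc log ((s * c + 1 : ℕ) : ℝ) ≤ log ((2 : ℝ) ^ (55 * m)) :=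
                log_le_log (by positivity) (by exact_mod_cast h4)
            _ = 55 * m * log 2 := by rw [log_pow]; push_cast; ring
            _ ≤ 39 * m := by have := log_two_lt_d9; nlinarith
      _ = _ := by rw [sum_const, nsmul_eq_mul, cnt]; ring
  have h2 : ∀ s ∈ Ioc 0 (6 * m), ∑ c ∈ Ioc (2 ^ i) (2 ^ (i + 1)),
      (if ¬ (s * c + 1).Prime then vonMangoldt (s * c + 1) else 0) ≤ x / 636 := by
    intro s hs
    have hs' := mem_Ioc.1 hs
    set Y : ℕ := 13 * m * 2 ^ i with hY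
    have h3 := hC Y
    rw [Chebyshev.psi_sub_theta_eq_sum_not_prime, Nat.floor_natCast, sum_filter] at h3
    have h4 : ∑ c ∈ Ioc (2 ^ i) (2 ^ (i + 1)),
        (if ¬ (s * c + 1).Prime then vonMangoldt (s * c + 1) else 0) ≤
        ∑ n ∈ Ioc 0 Y, if ¬ n.Prime then vonMangoldt n else 0 := by
      rw [← sum_image (f := fun n => if ¬ n.Prime then vonMangoldt n else 0)
        (g := fun c => s * c + 1) (fun a _ b _ hab => by simpa [hs'.1.ne'] using hab)]
      refine sum_le_sum_of_subset_of_nonneg (fun n hn => ?_) fun n _ _ => ?_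
      · obtain ⟨c, hc, rfl⟩ := mem_image.1 hn
        have h5 : s * c ≤ 6 * m * 2 ^ (i + 1) := Nat.mul_le_mul hs'.2 (mem_Ioc.1 hc).2
        have h7 : 1 ≤ m * 2 ^ i := Nat.mul_pos (by omega) (by positivity)
        refine mem_Ioc.2 ⟨by omega, ?_⟩
        rw [pow_succ] at h5
        rw [hY]; nlinarith
      · split_ifs; exacts [le_rfl, vonMangoldt_nonneg]
    refine h4.trans (h3.trans ?_)
    have h5 : √(Y : ℝ) ≤ x / (636 * |C| + 1) := by
      apply sqrt_le_iff.2 ⟨by positivity, ?_⟩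
      have h7 : (2 : ℝ) ^ m ≤ x := pow_le_pow_right₀ (by norm_num) hi1
      rw [pow_one, div_lt_div_iff₀ (by positivity) (by positivity)] at hm2
      rw [hY, div_pow, le_div_iff₀ (by positivity)]
      push_cast
      rw [← hx]
      nlinarith
    calc C * √(Y : ℝ) ≤ |C| * (x / (636 * |C| + 1)) :=
          mul_le_mul (le_abs_self C) h5 (sqrt_nonneg _) (abs_nonneg C)
      _ = x * (|C| / (636 * |C| + 1)) := by ring
      _ ≤ x * (1 / 636) := by
          apply mul_le_mul_of_nonneg_left _ hx0.le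
          rw [div_le_div_iff₀ (by positivity) (by norm_num)]; linarith
      _ = _ := by ring
  have h3 := h.trans (sum_le_sum h1)
  rw [sum_add_distrib, ← mul_sum, sum_comm] at h3
  have h4 := sum_le_sum h2
  rw [sum_const, nsmul_eq_mul, Nat.card_Ioc, Nat.sub_zero] at h4
  push_cast at h4
  set U := ∑ c ∈ Ioc (2 ^ i) (2 ^ (i + 1)), (cnt (6 * m) c : ℝ)
  have h5 : m * (x / 106) ≤ m * (39 * U) := by linarith
  have h7 := le_of_mul_le_mul_left h5 (by linarith)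
  linarith

theorem second_count : ∃ C : ℝ, 0 < C ∧ ∀ K N : ℕ, 2 ^ 120 ≤ N →
    ∑ c ∈ Ioc 0 N, ((cnt K c).choose 2 : ℝ) ≤ C * K ^ 2 * (N / log N ^ 2) := by
  classical
  refine ⟨(25600 * exp 6 + 300) * exp 15, by positivity, fun K N hN => ?_⟩
  set L := (Ioc 0 K ×ˢ Ioc 0 K).filter (fun a : ℕ × ℕ => a.1 < a.2) with hL
  have h1 : ∀ c, ((cnt K c).choose 2 : ℝ) =
      ∑ a ∈ L, if (a.1 * c + 1).Prime ∧ (a.2 * c + 1).Prime then 1 else 0 := by
    intro c
    rw [sum_boole, cnt, ← card_product_filter_lt]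
    congr 2
    ext a
    simp only [hL, mem_filter, mem_product]
    tauto
  simp only [h1]
  rw [sum_comm]
  have hq : (0 : ℝ) ≤ N / log N ^ 2 := by positivity
  have h2 : ∀ a ∈ L, ∑ c ∈ Ioc 0 N,
      (if (a.1 * c + 1).Prime ∧ (a.2 * c + 1).Prime then (1 : ℝ) else 0) ≤
      (25600 * exp 6 + 300) * (N / log N ^ 2) *
        ((ew a.1 ^ 3 + ew a.2 ^ 3 + ew (a.2 - a.1) ^ 3) / 3) := by
    intro a ha
    rw [hL, mem_filter, mem_product] at ha
    rw [sum_boole]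
    refine (pair_sieve hN (mem_Ioc.1 ha.1.1).1 ha.2).trans ?_
    have h3 : ew a.1 * ew a.2 * ew (a.2 - a.1) ≤
        (ew a.1 ^ 3 + ew a.2 ^ 3 + ew (a.2 - a.1) ^ 3) / 3 := by
      have p1 := ew_pos a.1
      have p2 := ew_pos a.2
      have p3 := ew_pos (a.2 - a.1)
      generalize ew a.1 = u at *
      generalize ew a.2 = v at *
      generalize ew (a.2 - a.1) = w at *
      have : 0 ≤ (u + v + w) * ((u - v) ^ 2 + (v - w) ^ 2 + (w - u) ^ 2) := by positivity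
      nlinarith
    calc _ = (25600 * exp 6 + 300) * (N / log N ^ 2) * (ew a.1 * ew a.2 * ew (a.2 - a.1)) := by
          ring
      _ ≤ _ := by gcongr
  refine (sum_le_sum h2).trans ?_
  rw [← mul_sum, ← sum_div, sum_add_distrib, sum_add_distrib]
  have h3 := sum_ew_cube_le K
  have hw : ∀ s, 0 ≤ ew s ^ 3 := fun s => pow_nonneg (ew_pos s).le _
  have h4 : ∑ a ∈ Ioc 0 K ×ˢ Ioc 0 K, ew a.2 ^ 3 ≤ exp 15 * K ^ 2 := by
    rw [sum_product]
    simp only [sum_const, nsmul_eq_mul, Nat.card_Ioc, Nat.sub_zero]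
    calc _ ≤ K * (exp 15 * K) := by gcongr
      _ = _ := by ring
  have h5 : ∑ a ∈ Ioc 0 K ×ˢ Ioc 0 K, ew a.1 ^ 3 ≤ exp 15 * K ^ 2 := by
    rw [sum_product_right]
    simp only [sum_const, nsmul_eq_mul, Nat.card_Ioc, Nat.sub_zero]
    calc _ ≤ K * (exp 15 * K) := by gcongr
      _ = _ := by ring
  have h6 : ∑ a ∈ L, ew a.1 ^ 3 ≤ exp 15 * K ^ 2 :=
    (sum_le_sum_of_subset_of_nonneg (filter_subset _ _) fun _ _ _ => hw _).trans h5
  have h7 : ∑ a ∈ L, ew a.2 ^ 3 ≤ exp 15 * K ^ 2 :=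
    (sum_le_sum_of_subset_of_nonneg (filter_subset _ _) fun _ _ _ => hw _).trans h4
  have h8 : ∑ a ∈ L, ew (a.2 - a.1) ^ 3 ≤ exp 15 * K ^ 2 := by
    refine le_trans ?_ h4
    rw [← sum_image (f := fun a : ℕ × ℕ => ew a.2 ^ 3) (g := fun a : ℕ × ℕ => (a.1, a.2 - a.1))
      (s := L) ?_]
    · refine sum_le_sum_of_subset_of_nonneg (fun b hb => ?_) fun _ _ _ => hw _
      obtain ⟨a, ha, rfl⟩ := mem_image.1 hb
      simp only [hL, mem_filter, mem_product, mem_Ioc] at ha ⊢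
      omega
    · intro a ha b hb hab
      simp only [hL, coe_filter, mem_product, mem_Ioc, Set.mem_ofPred_eq, Prod.mk.injEq]
        at ha hb hab
      ext <;> omega
  calc _ ≤ (25600 * exp 6 + 300) * (N / log N ^ 2) * (exp 15 * K ^ 2) := by
        gcongr; linarith
    _ = _ := by ring

theorem many_primes : ∃ c : ℝ, 0 < c ∧ ∀ i₀ : ℕ, ∃ i, i₀ ≤ i ∧
    c * 2 ^ i ≤ (((Ioc (2 ^ i) (2 ^ (i + 1))).filter
      (fun n => ∃ s ∈ Ioc 0 (6 * i), (s * n + 1).Prime)).card : ℝ) := by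
  classical
  obtain ⟨C, hC0, hC⟩ := second_count
  set θ : ℝ := min 1 (1 / (16800 * (216 * C))) with hθ
  have hθ0 : 0 < θ := lt_min one_pos (by positivity)
  have hθ1 : θ ≤ 1 := min_le_left _ _
  have hθ2 : θ ≤ 1 / (16800 * (216 * C)) := min_le_right _ _
  refine ⟨θ / 8400, by positivity, fun i₀ => ?_⟩
  obtain ⟨m, ⟨i, hi1, hi2, h⟩, hm⟩ := (first_count.and (eventually_ge_atTop (i₀ + 120))).exists
  refine ⟨i, by omega, ?_⟩
  set x : ℝ := 2 ^ i with hx
  have hx0 : 0 < x := by positivity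
  have hm0 : (1 : ℝ) ≤ m := by exact_mod_cast (by omega : 1 ≤ m)
  have h1 := hC (6 * m) (2 ^ (i + 1)) (Nat.pow_le_pow_right (by norm_num) (by omega))
  have h2 : ∑ c ∈ Ioc (2 ^ i) (2 ^ (i + 1)), ((cnt (6 * m) c).choose 2 : ℝ) ≤ 216 * C * x := by
    refine (sum_le_sum_of_subset_of_nonneg (Ioc_subset_Ioc_left (Nat.zero_le _))
      fun _ _ _ => by positivity).trans (h1.trans ?_)
    have h3 : (m : ℝ) ^ 2 / 3 ≤ log ((2 ^ (i + 1) : ℕ) : ℝ) ^ 2 := by
      have h4 : (m : ℝ) * (2 / 3) ≤ log ((2 ^ (i + 1) : ℕ) : ℝ) := by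
        push_cast
        rw [log_pow]
        have := log_two_gt_d9
        have : (m : ℝ) ≤ ((i + 1 : ℕ) : ℝ) := by exact_mod_cast (by omega : m ≤ i + 1)
        gcongr; linarith
      calc (m : ℝ) ^ 2 / 3 ≤ ((m : ℝ) * (2 / 3)) ^ 2 := by nlinarith
        _ ≤ _ := by gcongr
    calc _ ≤ C * ((6 * m : ℕ) : ℝ) ^ 2 * (((2 ^ (i + 1) : ℕ) : ℝ) / ((m : ℝ) ^ 2 / 3)) := by gcongr
      _ = _ := by push_cast; rw [pow_succ (2 : ℝ) i, ← hx]; field_simp; ring
  have h3 : ∀ c ∈ Ioc (2 ^ i) (2 ^ (i + 1)),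
      θ * cnt (6 * m) c - 2 * θ ^ 2 * ((cnt (6 * m) c).choose 2 : ℝ) ≤
        if ∃ s ∈ Ioc 0 (6 * i), (s * c + 1).Prime then 1 else 0 := by
    intro c _
    split_ifs with h4
    · rw [Nat.cast_choose_two]
      have h5 : (0 : ℝ) ≤ cnt (6 * m) c := by positivity
      generalize (cnt (6 * m) c : ℝ) = t at *
      have h6 : θ ^ 2 * t ≤ θ * t := by nlinarith [mul_nonneg hθ0.le h5]
      nlinarith [sq_nonneg (θ * t - 1)]
    · have h5 : cnt (6 * m) c = 0 := by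
        rw [cnt, card_eq_zero, filter_eq_empty_iff]
        intro s hs hp
        exact h4 ⟨s, mem_Ioc.2 ⟨(mem_Ioc.1 hs).1, (mem_Ioc.1 hs).2.trans (by omega)⟩, hp⟩
      simp [h5]
  have h4 := sum_le_sum h3
  rw [sum_boole, sum_sub_distrib, ← mul_sum, ← mul_sum] at h4
  refine le_trans ?_ h4
  have h5 : 2 * θ ^ 2 * (216 * C * x) ≤ θ / 8400 * x := by
    rw [le_div_iff₀ (by positivity)] at hθ2
    have : 2 * θ ^ 2 * (216 * C * x) = (θ * (16800 * (216 * C))) * (θ / 8400 * x) := by ring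
    rw [this]
    exact mul_le_of_le_one_left (by positivity) hθ2
  have h6 : θ * (x / 4200) ≤ θ * ∑ c ∈ Ioc (2 ^ i) (2 ^ (i + 1)), (cnt (6 * m) c : ℝ) := by
    gcongr
  have h7 : 2 * θ ^ 2 * ∑ c ∈ Ioc (2 ^ i) (2 ^ (i + 1)), ((cnt (6 * m) c).choose 2 : ℝ) ≤
      2 * θ ^ 2 * (216 * C * x) := by gcongr
  linarith

end Pool.Agent.P.MP_01fe58_nt
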