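import Pool.Agent.P.MP_01fe58_nt.Except
import Pool.Agent.P.MP_01fe58_nt.BadCount
import Pool.Agent.P.MP_01fe58_nt.ManyPrimes

/-!
A positive upper density of integers `c` whose least prime `p ≡ 1 (mod c)` is the least integer
with totient divisible by `c`.
-/

namespace Pool.Agent.P.MP_01fe58_nt

open Finset Real Filter Topology Pool.Agent.Lib.Sieve

/-- Some prime that is one modulo `c` is below every positive integer with totient divisible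
by `c`. -/
def Eqv (c : ℕ) : Prop :=
  ∃ s, (s * c + 1).Prime ∧ ∀ m, 0 < m → c ∣ m.totient → s * c + 1 ≤ m

theorem classify {i h g j₀ B n : ℕ} (hn : n ∈ Ioc (2 ^ i) (2 ^ (i + 1)))
    (hs : ∃ s ∈ Ioc 0 (6 * i), (s * n + 1).Prime) (hg : 6 * i * 2 ^ g ≤ 2 ^ h) :
    (∃ b ∈ Ioc 0 B, ∃ c, n = b * c ∧ Eqv c) ∨ (∀ p, p.Prime → p ∣ n → p ≤ 2 ^ h) ∨
    (∃ k ∈ Ioc 0 (6 * i), Sq (2 ^ h) (n * k)) ∨ Sq (2 ^ j₀) n ∨
    (∃ b, b ∣ n ∧ B < b ∧ ∀ p, p.Prime → p ∣ b → p ≤ 2 ^ 2 ^ j₀) ∨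
    ∃ j ∈ Ioc j₀ (i + 1),
      (¬ Sq (2 ^ j) n ∧ exp (0.59 * j) * cw (ha (2 ^ j) (2 ^ 2 ^ j)) n < 1) ∨
      exp (0.03 * j) < (((Ioc 0 (2 ^ j)).filter (fun d => d ∣ n)).card : ℝ) ∨
      Bad j (6 * i) g n := by
  classical
  obtain ⟨s₀, hs₀, hp₀⟩ := hs
  rw [mem_Ioc] at hn hs₀
  have hn2 : 2 ≤ n := lt_of_le_of_lt Nat.one_le_two_pow hn.1
  by_cases h2 : ∀ p, p.Prime → p ∣ n → p ≤ 2 ^ h
  · exact Or.inr (Or.inl h2)
  push Not at h2
  obtain ⟨q, hq, hqn, hqh⟩ := h2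
  rcases descent hn2 hs₀.2 hp₀ hq hqn with ⟨k, r, h1, h2, h3, h4⟩ | ⟨k, r, h1, h2, h3, h4⟩ |
    ⟨b, c, s, t, rfl, hb, hs, ht, hst, hp, hqs, hmin⟩
  · exact Or.inr (Or.inr (Or.inl ⟨k, mem_Ioc.2 ⟨h1, h2⟩, r, hqh.trans_le h3, Or.inl h4⟩))
  · exact Or.inr (Or.inr (Or.inl ⟨k, mem_Ioc.2 ⟨h1, h2⟩, r, hqh.trans_le h3, Or.inr h4⟩))
  have hb0 : 0 < b := Nat.pos_of_mul_pos_right (lt_of_lt_of_le two_pos hn2)
  have hc0 : 0 < c := Nat.pos_of_mul_pos_left (lt_of_lt_of_le two_pos hn2)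
  by_cases h3 : b ≤ B
  · exact Or.inl ⟨b, mem_Ioc.2 ⟨hb0, h3⟩, c, rfl, s, hp, hmin⟩
  refine Or.inr (Or.inr (Or.inr ?_))
  by_cases h4 : Sq (2 ^ j₀) (b * c)
  · exact Or.inl h4
  by_cases h5 : ∀ p, p.Prime → p ∣ b → p ≤ 2 ^ 2 ^ j₀
  · exact Or.inr (Or.inl ⟨b, dvd_mul_right _ _, not_le.1 h3, h5⟩)
  refine Or.inr (Or.inr ?_)
  have hbN : b ≤ 2 ^ (i + 1) := (Nat.le_mul_of_pos_right _ hc0).trans hn.2
  have hmono : ∀ {j l : ℕ}, j ≤ l → 2 ^ 2 ^ j ≤ 2 ^ 2 ^ l := fun hjl =>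
    Nat.pow_le_pow_right two_pos (Nat.pow_le_pow_right two_pos hjl)
  have hJ : ∀ p, p.Prime → p ∣ b → p ≤ 2 ^ 2 ^ (i + 1) := fun p _ hpb =>
    (Nat.le_of_dvd hb0 hpb).trans
      (hbN.trans (Nat.pow_le_pow_right two_pos Nat.lt_two_pow_self.le))
  have hex : ∃ j, ∀ p, p.Prime → p ∣ b → p ≤ 2 ^ 2 ^ j := ⟨i + 1, hJ⟩
  set j := Nat.find hex with hj
  have hj1 : ∀ p, p.Prime → p ∣ b → p ≤ 2 ^ 2 ^ j := Nat.find_spec hex
  have hj2 : j₀ < j := by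
    by_contra h6
    exact h5 fun p hp hpb => (hj1 p hp hpb).trans (hmono (not_lt.1 h6))
  have hj3 : j ≤ i + 1 := Nat.find_min' hex hJ
  have hj4 := Nat.find_min hex (m := j - 1) (by omega)
  push Not at hj4
  obtain ⟨q', hq', hq'b, hq'j⟩ := hj4
  refine ⟨j, mem_Ioc.2 ⟨hj2, hj3⟩, ?_⟩
  by_cases h6 : exp (0.59 * j) * cw (ha (2 ^ j) (2 ^ 2 ^ j)) (b * c) < 1
  · refine Or.inl ⟨fun ⟨r, hr, h7⟩ => h4 ⟨r, lt_of_le_of_lt ?_ hr, h7⟩, h6⟩
    exact Nat.pow_le_pow_right two_pos hj2.le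
  by_cases h7 : exp (0.03 * j) < (((Ioc 0 (2 ^ j)).filter (fun d => d ∣ b * c)).card : ℝ)
  · exact Or.inr (Or.inl h7)
  refine Or.inr (Or.inr ⟨not_lt.1 h6, not_lt.1 h7, b, c, s, t, rfl, hb, hs, ht, hst, hp, ?_, hj1,
    q', hq', hq'j, hq'b⟩)
  by_contra h8
  have h9 : s ≤ 6 * i := (Nat.le_mul_of_pos_right _ ht).trans hst
  have h10 : s * c ≤ 6 * i * 2 ^ g := Nat.mul_le_mul h9 (not_le.1 h8).le
  omega

theorem eventually_mul_le_two_pow (L : ℕ) : ∃ g₀ : ℕ, ∀ g, g₀ ≤ g → L * g ≤ 2 ^ g := by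
  refine ⟨2 * L + 2, fun g hg => ?_⟩
  have h1 : g / 2 < 2 ^ (g / 2) := Nat.lt_two_pow_self
  have h2 : g - g / 2 - 1 < 2 ^ (g - g / 2 - 1) := Nat.lt_two_pow_self
  have h3 : 2 ^ g = 2 ^ (g / 2) * (2 * 2 ^ (g - g / 2 - 1)) := by
    rw [← pow_succ', ← pow_add]; congr 1; omega
  rw [h3]
  exact Nat.mul_le_mul (by omega) (by omega)

open Classical in
theorem many_eqv : ∃ δ : ℝ, 0 < δ ∧ ∀ i₀ : ℕ, ∃ i, i₀ ≤ i ∧
    δ * 2 ^ i ≤ (((Ioc 0 (2 ^ (i + 1))).filter Eqv).card : ℝ) := by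
  obtain ⟨c, hc, hmany⟩ := many_primes
  obtain ⟨C, hC0, hC⟩ := bad_count
  obtain ⟨k₀, hk₀⟩ := exists_nat_gt (64 / c)
  have hk0 : (0 : ℝ) < k₀ := lt_trans (by positivity) hk₀
  have hk1 : 0 < k₀ := by exact_mod_cast hk0
  set k := 4 * k₀ with hk
  set D : ℝ := 6 + 2 * exp 3 + C * k ^ 2 with hD
  have hD0 : 0 < D := by positivity
  obtain ⟨j₀, hj₀, hj₁, hj₂⟩ := tail_small (ε := c / (8 * D)) (by positivity)
  obtain ⟨B, hB0, hB⟩ := card_smooth_dvd_le (2 ^ 2 ^ j₀) (ε := c / 16) (by positivity)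
  obtain ⟨L, hL⟩ := exists_nat_gt (6 + 1152 / c)
  have hL6 : (6 : ℝ) ≤ L := le_trans (le_add_of_nonneg_right (by positivity)) hL.le
  obtain ⟨g₀, hg₀⟩ := eventually_mul_le_two_pow (L * k)
  have hBR : (0 : ℝ) < B := by exact_mod_cast hB0
  refine ⟨c / (2 * B), by positivity, fun i₀ => ?_⟩
  obtain ⟨i, hi, hA⟩ := hmany (i₀ + 2 * k₀ * (g₀ + 120))
  refine ⟨i, by omega, ?_⟩
  set h := i / k₀ with hh
  set g := h / 2 with hg
  have hh1 : 2 * (g₀ + 120) ≤ h := (Nat.le_div_iff_mul_le hk1).2 (by nlinarith)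
  have hh2 : i < k₀ * (h + 1) := Nat.lt_mul_div_succ i hk1
  have hh3 : h * k₀ ≤ i := Nat.div_mul_le_self i k₀
  have hg1 : 120 ≤ g := by omega
  have hg2 : i + 1 ≤ k * g := by
    have : k₀ * (h + 1) ≤ k₀ * (4 * g) := Nat.mul_le_mul_left _ (by omega)
    rw [hk]; nlinarith
  have hi1 : 1 ≤ i := by nlinarith
  have hg3 : L * i ≤ 2 ^ g := by
    refine le_trans ?_ (hg₀ g (by omega))
    rw [mul_assoc]; exact Nat.mul_le_mul_left _ (by omega)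
  have hg4 : 2 ^ g * 2 ^ g ≤ 2 ^ h := by
    rw [← pow_add]; exact Nat.pow_le_pow_right two_pos (by omega)
  have hg5 : 6 * i * 2 ^ g ≤ 2 ^ h := by
    have : 6 ≤ L := by exact_mod_cast hL6
    exact le_trans (Nat.mul_le_mul_right _ ((Nat.mul_le_mul_right _ this).trans hg3)) hg4
  set N := 2 ^ (i + 1) with hN
  have hNR : (N : ℝ) = 2 * 2 ^ i := by rw [hN]; push_cast; ring
  set x : ℝ := 2 ^ i with hx
  have hx0 : 0 < x := by positivity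
  set E₁ := image₂ (· * ·) (Ioc 0 B) ((Ioc 0 N).filter Eqv)
  set E₂ := (Ioc (2 ^ i) N).filter (fun n => ∀ p, p.Prime → p ∣ n → p ≤ 2 ^ h)
  set E₃ := (Ioc 0 N).filter (fun n => ∃ k ∈ Ioc 0 (6 * i), Sq (2 ^ h) (n * k))
  set E₄ := (Ioc 0 N).filter (Sq (2 ^ j₀))
  set E₅ := (Ioc 0 N).filter (fun n => ∃ b, b ∣ n ∧ B < b ∧ ∀ p, p.Prime → p ∣ b → p ≤ 2 ^ 2 ^ j₀)
  let F : ℕ → Finset ℕ := fun j => (Ioc 0 N).filter (fun n => ¬ Sq (2 ^ j) n ∧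
      exp (0.59 * j) * cw (ha (2 ^ j) (2 ^ 2 ^ j)) n < 1) ∪ ((Ioc 0 N).filter (fun n =>
      exp (0.03 * j) < (((Ioc 0 (2 ^ j)).filter (fun d => d ∣ n)).card : ℝ)) ∪
      (Ioc 0 N).filter (Bad j (6 * i) g))
  set E₆ := (Ioc j₀ (i + 1)).biUnion F
  have hsub : (Ioc (2 ^ i) N).filter (fun n => ∃ s ∈ Ioc 0 (6 * i), (s * n + 1).Prime) ⊆
      E₁ ∪ (E₂ ∪ (E₃ ∪ (E₄ ∪ (E₅ ∪ E₆)))) := by
    intro n hn
    obtain ⟨h1, h2⟩ := mem_filter.1 hn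
    have h3 : n ∈ Ioc 0 N := Ioc_subset_Ioc_left (Nat.zero_le _) h1
    simp only [mem_union]
    rcases classify (j₀ := j₀) (B := B) h1 h2 hg5 with ⟨b, hb, c, rfl, h4⟩ | h4 | h4 | h4 | h4 |
      ⟨j, hj, h4⟩
    · rw [mem_Ioc] at h3
      exact Or.inl (mem_image₂.2 ⟨b, hb, c, mem_filter.2 ⟨mem_Ioc.2
        ⟨Nat.pos_of_mul_pos_left h3.1, (Nat.le_mul_of_pos_left _ (mem_Ioc.1 hb).1).trans h3.2⟩,
        h4⟩, rfl⟩)
    · exact Or.inr (Or.inl (mem_filter.2 ⟨h1, h4⟩))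
    · exact Or.inr (Or.inr (Or.inl (mem_filter.2 ⟨h3, h4⟩)))
    · exact Or.inr (Or.inr (Or.inr (Or.inl (mem_filter.2 ⟨h3, h4⟩))))
    · exact Or.inr (Or.inr (Or.inr (Or.inr (Or.inl (mem_filter.2 ⟨h3, h4⟩)))))
    · refine Or.inr (Or.inr (Or.inr (Or.inr (Or.inr (mem_biUnion.2 ⟨j, hj, ?_⟩)))))
      rcases h4 with h4 | h4 | h4
      · exact mem_union_left _ (mem_filter.2 ⟨h3, h4⟩)
      · exact mem_union_right _ (mem_union_left _ (mem_filter.2 ⟨h3, h4⟩))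
      · exact mem_union_right _ (mem_union_right _ (mem_filter.2 ⟨h3, h4⟩))
  have hcard : (((Ioc (2 ^ i) N).filter
      (fun n => ∃ s ∈ Ioc 0 (6 * i), (s * n + 1).Prime)).card : ℝ) ≤
      E₁.card + (E₂.card + (E₃.card + (E₄.card + (E₅.card + E₆.card)))) := by
    have := (card_le_card hsub).trans ((card_union_le _ _).trans (Nat.add_le_add_left
      ((card_union_le _ _).trans (Nat.add_le_add_left ((card_union_le _ _).trans
      (Nat.add_le_add_left ((card_union_le _ _).trans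
      (Nat.add_le_add_left (card_union_le _ _) _)) _)) _)) _))
    exact_mod_cast this
  have e1 : (E₁.card : ℝ) ≤ B * (((Ioc 0 N).filter Eqv).card : ℝ) := by
    have := card_image₂_le (· * ·) (Ioc 0 B) ((Ioc 0 N).filter Eqv)
    rw [Nat.card_Ioc, Nat.sub_zero] at this
    exact_mod_cast this
  have hiR : (0 : ℝ) < i := by exact_mod_cast hi1
  have e2 : (E₂.card : ℝ) ≤ c / 8 * x := by
    have h1 : (E₂.card : ℝ) * i ≤ 4 * x * (h + 2) := card_smooth_le i h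
    have h2 : ((h : ℝ) + 2) * k₀ ≤ 2 * i := by
      have : (h + 2) * k₀ ≤ 2 * i := by nlinarith
      exact_mod_cast this
    rw [div_lt_iff₀ hc] at hk₀
    apply le_of_mul_le_mul_right _ hiR
    refine h1.trans ?_
    have h3 : 32 * ((h : ℝ) + 2) ≤ c * i := by
      apply le_of_mul_le_mul_right _ hk0
      nlinarith
    nlinarith
  have e3 : (E₃.card : ℝ) ≤ c / 8 * x := by
    have h1 := card_sq_mul_le N (6 * i) (Z := 2 ^ h) Nat.one_le_two_pow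
    refine h1.trans ?_
    have h2 : ((L : ℝ) * i) * (L * i) ≤ ((2 ^ h : ℕ) : ℝ) := by
      exact_mod_cast (Nat.mul_le_mul hg3 hg3).trans hg4
    have h3 : 1152 ≤ c * L := by
      have : 1152 / c ≤ L := by linarith
      rwa [div_le_iff₀' hc] at this
    have hL0 : (0 : ℝ) < L := by linarith
    rw [hNR]
    calc _ ≤ ((6 * i : ℕ) : ℝ) * (2 * (2 * x * ((6 * i : ℕ) : ℝ)) / ((L * i) * (L * i))) := by
          gcongr
      _ = 144 / (L * L) * x := by push_cast; field_simp; norm_num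
      _ ≤ _ := by
          refine mul_le_mul_of_nonneg_right ?_ hx0.le
          rw [div_le_div_iff₀ (by positivity) (by norm_num)]
          nlinarith
  have e4 : (E₄.card : ℝ) ≤ 4 * x * (c / (8 * D)) := by
    refine (card_sq_le N (Z := 2 ^ j₀) Nat.one_le_two_pow).trans ?_
    rw [hNR]; push_cast
    calc _ = 4 * x * (1 / 2 ^ j₀) := by ring
      _ ≤ _ := mul_le_mul_of_nonneg_left hj₁ (by positivity)
  have e5 : (E₅.card : ℝ) ≤ c / 8 * x := by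
    refine (hB N).trans (le_of_eq ?_)
    rw [hNR]; ring
  have e6 : (E₆.card : ℝ) ≤ (D - 4) * x * (c / (8 * D)) := by
    have h1 : ∀ j ∈ Ioc j₀ (i + 1), ((F j).card : ℝ) ≤
        (D - 4) * x * (((j : ℝ) + 1) ^ 6 * exp (-(0.007 * j))) := by
      intro j hj
      have hj' := (mem_Ioc.1 hj).1
      have a1 := card_weight_le N j
      have a2 := card_many_dvd_le N j
      have a3 := hC i j g k (by omega) hg1 hg2 hi1
      have hj0 : (0 : ℝ) ≤ j := Nat.cast_nonneg _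
      have b1 : exp (-(0.007 * j)) ≤ ((j : ℝ) + 1) ^ 6 * exp (-(0.007 * j)) :=
        le_mul_of_one_le_left (exp_pos _).le (one_le_pow₀ (by linarith))
      have b2 : ((j : ℝ) + 1) * exp (-(0.03 * j)) ≤ ((j : ℝ) + 1) ^ 6 * exp (-(0.007 * j)) :=
        mul_le_mul (le_self_pow₀ (by linarith) (by norm_num)) (exp_le_exp.2 (by linarith))
          (exp_pos _).le (by positivity)
      have b3 := add_le_add (a1.trans (mul_le_mul_of_nonneg_left b1 (by positivity)))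
        (add_le_add (a2.trans (mul_le_mul_of_nonneg_left b2 (Nat.cast_nonneg _))) a3)
      refine le_trans ?_ (b3.trans (le_of_eq ?_))
      · exact_mod_cast (card_union_le _ _).trans (Nat.add_le_add_left (card_union_le _ _) _)
      · rw [hNR, hD]; ring
    calc (E₆.card : ℝ) ≤ ∑ j ∈ Ioc j₀ (i + 1), ((F j).card : ℝ) := by
          exact_mod_cast card_biUnion_le
      _ ≤ _ := sum_le_sum h1
      _ ≤ _ := by
          rw [← mul_sum]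
          refine mul_le_mul_of_nonneg_left (hj₂ _) (mul_nonneg ?_ hx0.le)
          have : 0 ≤ 2 * exp 3 + C * k ^ 2 := by positivity
          rw [hD]; linarith
  have e7 : 4 * x * (c / (8 * D)) + (D - 4) * x * (c / (8 * D)) = c / 8 * x := by
    field_simp; ring
  rw [div_mul_eq_mul_div, div_le_iff₀ (by positivity)]
  have := hA.trans hcard
  linarith

end Pool.Agent.P.MP_01fe58_nt
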