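import Pool.Agent.P.MP_78d079_nt.XbSW
import Pool.Agent.Lib.Sieve.Shifted

/-! Primes `s * c + 1` with `c` in a dyadic block, for every small `s` and every large block. -/

namespace Pool.Agent.P.MP_01fe58_nt.H

open Finset Real Filter Pool.Agent.Lib.Sieve

theorem th_diff {s x : ℕ} (hs : 1 ≤ s) :
    Pool.Agent.Jac.thA ((s * (2 * x) + 1 : ℕ) : ℝ) s 1 - Pool.Agent.Jac.thA ((s * x + 1 : ℕ) : ℝ) s 1 ≤
      (((Ioc x (2 * x)).filter (fun c => (s * c + 1).Prime)).card : ℝ) *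
        log ((s * (2 * x) + 1 : ℕ) : ℝ) := by
  classical
  unfold Pool.Agent.Jac.thA
  rw [Nat.floor_natCast, Nat.floor_natCast]
  have hle : s * x + 1 ≤ s * (2 * x) + 1 := by nlinarith
  have hsub : (Icc 1 (s * x + 1)).filter (fun q => q.Prime ∧ q ≡ 1 [MOD s]) ⊆
      (Icc 1 (s * (2 * x) + 1)).filter (fun q => q.Prime ∧ q ≡ 1 [MOD s]) :=
    filter_subset_filter _ (Icc_subset_Icc_right hle)
  rw [← sum_sdiff hsub, add_sub_cancel_right]
  set T := (Icc 1 (s * (2 * x) + 1)).filter (fun q => q.Prime ∧ q ≡ 1 [MOD s]) \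
    (Icc 1 (s * x + 1)).filter (fun q => q.Prime ∧ q ≡ 1 [MOD s]) with hT
  have h1 : T ⊆ ((Ioc x (2 * x)).filter (fun c => (s * c + 1).Prime)).image
      (fun c => s * c + 1) := by
    intro q hq
    simp only [hT, Finset.mem_sdiff, mem_filter, mem_Icc, not_and] at hq
    obtain ⟨⟨⟨h1, h2⟩, h3, h4⟩, h5⟩ := hq
    obtain ⟨c, hc⟩ := (Nat.modEq_iff_dvd' h1).1 h4.symm
    have e : q = s * c + 1 := by omega
    have h6 : s * x + 1 < q := by
      by_contra h7
      exact h5 ⟨h1, not_lt.1 h7⟩ h3 h4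
    refine mem_image.2 ⟨c, mem_filter.2 ⟨mem_Ioc.2 ⟨?_, ?_⟩, e ▸ h3⟩, e.symm⟩
    · exact Nat.lt_of_mul_lt_mul_left (a := s) (by omega)
    · exact Nat.le_of_mul_le_mul_left (c := s) (by omega) hs
  have h2 : ∀ q ∈ T, log (q : ℝ) ≤ log ((s * (2 * x) + 1 : ℕ) : ℝ) := by
    intro q hq
    simp only [hT, Finset.mem_sdiff, mem_filter, mem_Icc] at hq
    exact log_le_log (by exact_mod_cast hq.1.1.1) (by exact_mod_cast hq.1.1.2)
  calc _ ≤ (T.card : ℝ) * log ((s * (2 * x) + 1 : ℕ) : ℝ) := by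
        simpa using sum_le_card_nsmul T _ _ h2
    _ ≤ _ := by
        refine mul_le_mul_of_nonneg_right ?_ (log_natCast_nonneg _)
        exact_mod_cast (card_le_card h1).trans card_image_le

theorem count_ge : ∀ᶠ x : ℕ in atTop, ∀ s : ℕ, 1 ≤ s → (s : ℝ) ≤ log x ^ 2 →
    (x : ℝ) / (4 * log x) ≤ (((Ioc x (2 * x)).filter (fun c => (s * c + 1).Prime)).card : ℝ) := by
  obtain ⟨C, hC, h⟩ := Pool.Agent.Jac.Xb.siegel_walfisz 3
  have ht : Tendsto (fun x : ℕ => (x : ℝ)) atTop atTop := tendsto_natCast_atTop_atTop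
  have h0 : ∀ᶠ y : ℝ in atTop, log y ^ 2 ≤ 1 / 3 * y := by
    filter_upwards [(isLittleO_pow_log_id_atTop (n := 2)).bound (show (0 : ℝ) < 1 / 3 by norm_num),
      eventually_ge_atTop 1] with y hy h1
    rw [Real.norm_of_nonneg (pow_nonneg (log_nonneg h1) _), id,
      Real.norm_of_nonneg (by linarith)] at hy
    exact hy
  filter_upwards [ht.eventually h0, (tendsto_log_atTop.comp ht).eventually_ge_atTop (10 * C + 1),
    ht.eventually_ge_atTop 3] with x h1 h2 h3 s hs hsl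
  simp only [Function.comp] at h2
  set l := log (x : ℝ) with hl
  have hl1 : 1 ≤ l := by linarith
  have hs1 : (1 : ℝ) ≤ s := by exact_mod_cast hs
  have hφ : (0 : ℝ) < Nat.totient s := by exact_mod_cast Nat.totient_pos.2 hs
  have hφs : (Nat.totient s : ℝ) ≤ s := by exact_mod_cast Nat.totient_le s
  have key : ∀ t : ℝ, x ≤ t → |Pool.Agent.Jac.thA t s 1 - t / Nat.totient s| ≤ C * t / l ^ 3 := by
    intro t hxt
    have h4 : l ≤ log t := log_le_log (by linarith) hxt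
    have h5 : l ^ 3 ≤ log t ^ 3 := by gcongr
    refine (h t s 1 (by linarith) hs (hsl.trans (le_trans ?_ h5)) (by simp)).trans ?_
    · exact pow_le_pow_right₀ hl1 (by norm_num)
    · have : 0 ≤ C * t := by nlinarith
      gcongr
  have a1 := abs_le.1 (key ((s * (2 * x) + 1 : ℕ) : ℝ) (by push_cast; nlinarith))
  have a2 := abs_le.1 (key ((s * x + 1 : ℕ) : ℝ) (by push_cast; nlinarith))
  have a3 := th_diff (x := x) hs
  have a4 : log ((s * (2 * x) + 1 : ℕ) : ℝ) ≤ 2 * l := by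
    have : ((s * (2 * x) + 1 : ℕ) : ℝ) ≤ (x : ℝ) ^ 2 := by push_cast; nlinarith
    calc _ ≤ log ((x : ℝ) ^ 2) := log_le_log (by positivity) this
      _ = _ := by rw [log_pow, hl]; norm_num
  have a5 : (x : ℝ) ≤ ((s * (2 * x) + 1 : ℕ) : ℝ) / Nat.totient s -
      ((s * x + 1 : ℕ) : ℝ) / Nat.totient s := by
    rw [← sub_div, le_div_iff₀ hφ]; push_cast; nlinarith
  have a6 : C * ((s * (2 * x) + 1 : ℕ) : ℝ) / l ^ 3 + C * ((s * x + 1 : ℕ) : ℝ) / l ^ 3 ≤ x / 2 := by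
    rw [← add_div, div_le_iff₀ (by positivity)]
    have b1 : ((s * (2 * x) + 1 : ℕ) : ℝ) + ((s * x + 1 : ℕ) : ℝ) ≤ 5 * (l ^ 2 * x) := by
      push_cast
      have : (s : ℝ) * x ≤ l ^ 2 * x := by gcongr
      nlinarith
    calc _ = C * (((s * (2 * x) + 1 : ℕ) : ℝ) + ((s * x + 1 : ℕ) : ℝ)) := by ring
      _ ≤ C * (5 * (l ^ 2 * x)) := by gcongr
      _ = (10 * C) * (l ^ 2 * x / 2) := by ring
      _ ≤ l * (l ^ 2 * x / 2) := by gcongr; linarith
      _ = _ := by ring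
  set Z : ℝ := (((Ioc x (2 * x)).filter (fun c => (s * c + 1).Prime)).card : ℝ)
  have hZ : 0 ≤ Z := Nat.cast_nonneg _
  have a7 : Z * log ((s * (2 * x) + 1 : ℕ) : ℝ) ≤ Z * (2 * l) := by gcongr
  rw [div_le_iff₀ (by positivity)]
  linarith [a1.1, a2.2]

theorem amgm {u v w : ℝ} (hu : 0 ≤ u) (hv : 0 ≤ v) (hw : 0 ≤ w) :
    u * v * w ≤ (u ^ 3 + v ^ 3 + w ^ 3) / 3 := by
  have : 0 ≤ (u + v + w) * ((u - v) ^ 2 + (v - w) ^ 2 + (w - u) ^ 2) := by positivity
  nlinarith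

/-- The constant of the pair sieve. -/
noncomputable def CP : ℝ := 25600 * exp 6 + 300

theorem CP_pos : 0 < CP := by unfold CP; positivity

theorem pair_le {N s t : ℕ} (hN : 2 ^ 120 ≤ N) (hs : 0 < s) (ht : 0 < t) (hst : t ≠ s) :
    (((Ioc 0 N).filter (fun c => (s * c + 1).Prime ∧ (t * c + 1).Prime)).card : ℝ) ≤
      CP * (N / log N ^ 2) * (ew s ^ 3 + ew t ^ 3 + ew (t - s) ^ 3 + ew (s - t) ^ 3) := by
  have hq : (0 : ℝ) ≤ CP * (N / log N ^ 2) := mul_nonneg CP_pos.le (by positivity)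
  have p1 := (ew_pos s).le
  have p2 := (ew_pos t).le
  have p3 := (ew_pos (t - s)).le
  have p4 := (ew_pos (s - t)).le
  have q1 := pow_nonneg p1 3
  have q2 := pow_nonneg p2 3
  have q3 := pow_nonneg p3 3
  have q4 := pow_nonneg p4 3
  rcases lt_or_gt_of_ne hst with h | h
  · have h1 := pair_sieve hN ht h
    simp only [and_comm (a := (t * _ + 1).Prime)] at h1
    refine h1.trans ?_
    calc _ = CP * (N / log N ^ 2) * (ew t * ew s * ew (s - t)) := by unfold CP; ring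
      _ ≤ _ := mul_le_mul_of_nonneg_left (by linarith [amgm p2 p1 p4]) hq
  · refine (pair_sieve hN hs h).trans ?_
    calc _ = CP * (N / log N ^ 2) * (ew s * ew t * ew (t - s)) := by unfold CP; ring
      _ ≤ _ := mul_le_mul_of_nonneg_left (by linarith [amgm p1 p2 p3]) hq

theorem shift_sum (K : ℕ) (T : Finset ℕ) (f : ℕ → ℕ) (hf : ∀ t ∈ T, f t ≤ K)
    (hinj : ∀ t ∈ T, ∀ u ∈ T, f t ≠ 0 → f t = f u → t = u) (hT : T.card ≤ K) :
    ∑ t ∈ T, ew (f t) ^ 3 ≤ 2 * exp 15 * K := by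
  classical
  rw [← sum_filter_add_sum_filter_not T (fun t => f t = 0)]
  have h1 : ∑ t ∈ T.filter (fun t => f t = 0), ew (f t) ^ 3 ≤ exp 15 * K := by
    have h2 : ∀ t ∈ T.filter (fun t => f t = 0), ew (f t) ^ 3 ≤ exp 15 := by
      intro t ht
      rw [(mem_filter.1 ht).2]
      simp [ew]
    refine (sum_le_card_nsmul _ _ _ h2).trans ?_
    rw [nsmul_eq_mul, mul_comm]
    gcongr
    exact_mod_cast (card_filter_le _ _).trans hT
  have h2 : ∑ t ∈ T.filter (fun t => ¬ f t = 0), ew (f t) ^ 3 ≤ exp 15 * K := by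
    rw [← sum_image (f := fun u => ew u ^ 3) (g := f) (fun t ht u hu h =>
      hinj t (mem_filter.1 ht).1 u (mem_filter.1 hu).1 (mem_filter.1 ht).2 h)]
    refine le_trans (sum_le_sum_of_subset_of_nonneg (fun u hu => ?_)
      fun _ _ _ => pow_nonneg (ew_pos _).le _) (sum_ew_cube_le K)
    obtain ⟨t, ht, rfl⟩ := mem_image.1 hu
    exact mem_Ioc.2 ⟨Nat.pos_of_ne_zero (mem_filter.1 ht).2, hf t (mem_filter.1 ht).1⟩
  linarith

theorem row_le {N s K : ℕ} (hN : 2 ^ 120 ≤ N) (hs : 0 < s) (hK : s ≤ K) :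
    ∑ t ∈ (Ioc 0 K).erase s,
      (((Ioc 0 N).filter (fun c => (s * c + 1).Prime ∧ (t * c + 1).Prime)).card : ℝ) ≤
      CP * (N / log N ^ 2) * (K * (ew s ^ 3 + 6 * exp 15)) := by
  have hq : (0 : ℝ) ≤ CP * (N / log N ^ 2) := mul_nonneg CP_pos.le (by positivity)
  refine (sum_le_sum fun t ht => pair_le hN hs (mem_Ioc.1 (mem_erase.1 ht).2).1
    (mem_erase.1 ht).1).trans ?_
  rw [← mul_sum]
  refine mul_le_mul_of_nonneg_left ?_ hq
  have hc : ((Ioc 0 K).erase s).card ≤ K := card_erase_le.trans (by simp)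
  have hm : ∀ t ∈ (Ioc 0 K).erase s, t ≤ K := fun t ht => (mem_Ioc.1 (mem_erase.1 ht).2).2
  have h1 := shift_sum K _ (fun t => t) hm (fun t _ u _ _ h => h) hc
  have h2 := shift_sum K _ (fun t => t - s) (fun t ht => by have := hm t ht; omega)
    (fun t _ u _ h h' => by omega) hc
  have h3 := shift_sum K _ (fun t => s - t) (fun t ht => by omega)
    (fun t _ u _ h h' => by omega) hc
  have h4 : ∑ t ∈ (Ioc 0 K).erase s, ew s ^ 3 ≤ K * ew s ^ 3 := by
    rw [sum_const, nsmul_eq_mul]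
    exact mul_le_mul_of_nonneg_right (by exact_mod_cast hc) (pow_nonneg (ew_pos s).le _)
  rw [sum_add_distrib, sum_add_distrib, sum_add_distrib]
  linarith

/-- `s * c + 1` is the only prime among the `t * c + 1` with `t ≤ K`. -/
def Only (K s c : ℕ) : Prop :=
  (s * c + 1).Prime ∧ ∀ t ∈ (Ioc 0 K).erase s, ¬ (t * c + 1).Prime

open Classical in
theorem only_ge {x s K : ℕ} (hx : 2 ^ 120 ≤ 2 * x) (hs : 0 < s) (hK : s ≤ K) :
    (((Ioc x (2 * x)).filter (fun c => (s * c + 1).Prime)).card : ℝ) ≤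
      (((Ioc x (2 * x)).filter (Only K s)).card : ℝ) +
      CP * (((2 * x : ℕ) : ℝ) / log ((2 * x : ℕ) : ℝ) ^ 2) * (K * (ew s ^ 3 + 6 * exp 15)) := by
  refine le_trans ?_ (add_le_add_right (row_le hx hs hK) _)
  have h1 : (Ioc x (2 * x)).filter (fun c => (s * c + 1).Prime) ⊆
      (Ioc x (2 * x)).filter (Only K s) ∪ ((Ioc 0 K).erase s).biUnion fun t =>
        (Ioc 0 (2 * x)).filter (fun c => (s * c + 1).Prime ∧ (t * c + 1).Prime) := by
    intro c hc
    obtain ⟨h1, h2⟩ := mem_filter.1 hc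
    by_cases h3 : Only K s c
    · exact mem_union_left _ (mem_filter.2 ⟨h1, h3⟩)
    · simp only [Only, not_and, not_forall, not_not] at h3
      obtain ⟨t, ht, h4⟩ := h3 h2
      exact mem_union_right _ (mem_biUnion.2 ⟨t, ht, mem_filter.2
        ⟨Ioc_subset_Ioc_left (Nat.zero_le _) h1, h2, h4⟩⟩)
  exact_mod_cast (card_le_card h1).trans ((card_union_le _ _).trans
    (Nat.add_le_add_left card_biUnion_le _))

open Classical in
/-- For a proportion at least `δ / M` of the `c` in a block there is exactly one prime `t * c + 1` with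
`t ≤ 6 M k`, and its `t` is odd and below `2 k`. -/
theorem many_only_unif : ∃ δ : ℝ, 0 < δ ∧ ∀ᶠ x : ℕ in atTop, ∀ M : ℕ, 1 ≤ M →
    (M : ℝ) ≤ δ * log x → ∃ k : ℕ, (k : ℝ) ≤ log x ∧
    δ / M * x ≤ (((Ioc x (2 * x)).filter
      (fun c => ∃ j ∈ range k, Only (6 * M * k) (2 * j + 1) c)).card : ℝ) := by
  set D : ℝ := 96 * CP * exp 15 + 2 with hD
  have hE : 0 < CP * exp 15 := mul_pos CP_pos (exp_pos _)
  have hD2 : 2 ≤ D := by rw [hD]; linarith
  refine ⟨1 / (128 * D), by positivity, ?_⟩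
  filter_upwards [count_ge, eventually_ge_atTop (2 ^ 120)] with x h1 h3 M hM hMl
  have hM1 : (1 : ℝ) ≤ M := by exact_mod_cast hM
  have h2 : 8 * D * M ≤ log x := by
    rw [div_mul_eq_mul_div, one_mul, le_div_iff₀ (by positivity)] at hMl
    nlinarith
  set l := log (x : ℝ) with hl
  have hW : 16 ≤ 8 * D * M := by nlinarith
  have hl1 : 16 ≤ l := by linarith
  have hx0 : (0 : ℝ) < x := by exact_mod_cast (by omega : 0 < x)
  set k := ⌊l / (8 * D * M)⌋₊ with hk
  have hk1 : (k : ℝ) * (8 * D * M) ≤ l := by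
    rw [← le_div_iff₀ (by positivity)]; exact Nat.floor_le (by positivity)
  have hk2 : l ≤ 2 * (k * (8 * D * M)) := by
    have a1 : l / (8 * D * M) < k + 1 := Nat.lt_floor_add_one _
    have a2 : 1 ≤ k := Nat.le_floor (by rw [Nat.cast_one, le_div_iff₀ (by positivity)]; linarith)
    have a3 : (1 : ℝ) ≤ k := by exact_mod_cast a2
    rw [div_lt_iff₀ (by positivity)] at a1
    nlinarith
  have hk0 : (0 : ℝ) ≤ k := Nat.cast_nonneg _
  have hk3 : 2 * (k : ℝ) ≤ l := by nlinarith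
  refine ⟨k, by linarith, ?_⟩
  have hdis : ((range k).biUnion fun j => (Ioc x (2 * x)).filter (Only (6 * M * k) (2 * j + 1))).card
      = ∑ j ∈ range k, ((Ioc x (2 * x)).filter (Only (6 * M * k) (2 * j + 1))).card := by
    refine card_biUnion fun j hj i hi hji => disjoint_left.2 fun c hc hc' => ?_
    have hi' := mem_range.1 (mem_coe.1 hi)
    refine (mem_filter.1 hc).2.2 (2 * i + 1) (mem_erase.2 ⟨by omega, mem_Ioc.2 ⟨by omega, ?_⟩⟩)
      (mem_filter.1 hc').2.1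
    nlinarith
  have hsub : ((range k).biUnion fun j => (Ioc x (2 * x)).filter (Only (6 * M * k) (2 * j + 1))) ⊆
      (Ioc x (2 * x)).filter (fun c => ∃ j ∈ range k, Only (6 * M * k) (2 * j + 1) c) := by
    intro c hc
    obtain ⟨j, hj, h4⟩ := mem_biUnion.1 hc
    exact mem_filter.2 ⟨(mem_filter.1 h4).1, j, hj, (mem_filter.1 h4).2⟩
  refine le_trans ?_ (Nat.cast_le.2 (card_le_card hsub))
  rw [hdis, Nat.cast_sum]
  set Q : ℝ := CP * (2 * x / l ^ 2) * (6 * M * k) with hQ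
  have hQ0 : 0 ≤ Q := by have := CP_pos; positivity
  have h4 : ∀ j ∈ range k, (x : ℝ) / (4 * l) ≤
      (((Ioc x (2 * x)).filter (Only (6 * M * k) (2 * j + 1))).card : ℝ) +
        Q * (ew (2 * j + 1) ^ 3 + 6 * exp 15) := by
    intro j hj
    have hj' := mem_range.1 hj
    have a1 : ((2 * j + 1 : ℕ) : ℝ) ≤ 2 * k := by exact_mod_cast (by omega : 2 * j + 1 ≤ 2 * k)
    refine (h1 (2 * j + 1) (by omega) (by nlinarith)).trans
      ((only_ge (K := 6 * M * k) (by omega) (by omega) (by nlinarith)).trans ?_)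
    have a2 : l ≤ log ((2 * x : ℕ) : ℝ) := log_le_log hx0 (by push_cast; linarith)
    have a3 : ((2 * x : ℕ) : ℝ) / log ((2 * x : ℕ) : ℝ) ^ 2 ≤ 2 * x / l ^ 2 := by
      rw [Nat.cast_mul, Nat.cast_two] at *
      gcongr
    have a4 : 0 ≤ ew (2 * j + 1) ^ 3 + 6 * exp 15 := by have := ew_pos (2 * j + 1); positivity
    have a5 := CP_pos
    rw [hQ, mul_assoc (CP * _)]
    push_cast at a3 ⊢
    gcongr
  have h5 := sum_le_sum h4
  rw [sum_add_distrib, ← mul_sum, sum_add_distrib] at h5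
  simp only [sum_const, card_range, nsmul_eq_mul] at h5
  have h6 : ∑ j ∈ range k, ew (2 * j + 1) ^ 3 ≤ exp 15 * ((2 * k : ℕ) : ℝ) := by
    rw [← sum_image (f := fun u => ew u ^ 3) (g := fun j => 2 * j + 1)
      (fun t _ u _ h => by simpa using h)]
    refine le_trans (sum_le_sum_of_subset_of_nonneg (fun u hu => ?_)
      fun _ _ _ => pow_nonneg (ew_pos _).le _) (sum_ew_cube_le (2 * k))
    obtain ⟨t, ht, rfl⟩ := mem_image.1 hu
    have := mem_range.1 ht
    exact mem_Ioc.2 ⟨by omega, by omega⟩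
  push_cast at h6
  have h7 : Q * (∑ j ∈ range k, ew (2 * j + 1) ^ 3 + k * (6 * exp 15)) ≤ k * (x / (8 * l)) := by
    calc _ ≤ Q * (8 * exp 15 * k) := by gcongr; linarith
      _ = (96 * CP * exp 15) * (k * (8 * M)) * (k * (x / (8 * l)) / l) := by
          rw [hQ]; field_simp; ring
      _ ≤ l * (k * (x / (8 * l)) / l) := by
          gcongr
          have : (96 * CP * exp 15) * (k * (8 * M)) ≤ D * (k * (8 * M)) := by
            gcongr; rw [hD]; linarith
          linarith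
      _ = _ := by field_simp
  have h8 : 1 / (128 * D) / M * x ≤ k * (x / (8 * l)) := by
    rw [← mul_div_assoc, le_div_iff₀ (by positivity)]
    calc _ = x / (16 * D * M) * l := by field_simp; ring
      _ ≤ x / (16 * D * M) * (2 * (k * (8 * D * M))) := by gcongr
      _ = _ := by field_simp; ring
  have h9 : (k : ℝ) * (x / (4 * l)) = 2 * (k * (x / (8 * l))) := by field_simp; ring
  linarith

open Classical in
theorem many_only : ∃ δ : ℝ, 0 < δ ∧ ∀ M : ℕ, 1 ≤ M → ∀ᶠ x : ℕ in atTop, ∃ k : ℕ,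
    (k : ℝ) ≤ log x ∧
    δ / M * x ≤ (((Ioc x (2 * x)).filter
      (fun c => ∃ j ∈ range k, Only (6 * M * k) (2 * j + 1) c)).card : ℝ) := by
  obtain ⟨δ, hδ, h⟩ := many_only_unif
  refine ⟨δ, hδ, fun M hM => ?_⟩
  filter_upwards [h, (tendsto_log_atTop.comp
    (tendsto_natCast_atTop_atTop (R := ℝ))).eventually_ge_atTop (M / δ)] with x h1 h2
  exact h1 M hM ((div_le_iff₀' hδ).1 h2)

end Pool.Agent.P.MP_01fe58_nt.H
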