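import Pool.Agent.P.MP_01fe58_nt.Good
import Pool.Agent.P.MP_01fe58_nt.HCount

/-! The count of `Good` in every large dyadic block. -/

namespace Pool.Agent.P.MP_01fe58_nt

open Finset Real Filter Topology Pool.Agent.Lib.Sieve

theorem many_primes_all : ∃ c : ℝ, 0 < c ∧ ∃ i₀ : ℕ, ∀ i, i₀ ≤ i →
    c * 2 ^ i ≤ (((Ioc (2 ^ i) (2 ^ (i + 1))).filter
      (fun n => ∃ s ∈ Ioc 0 (6 * i), (s * n + 1).Prime)).card : ℝ) := by
  classical
  obtain ⟨δ, hδ, h⟩ := H.many_only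
  obtain ⟨x₀, hx₀⟩ := eventually_atTop.1 (h 1 le_rfl)
  refine ⟨δ, hδ, x₀, fun i hi => ?_⟩
  obtain ⟨k, hk, h1⟩ := hx₀ (2 ^ i) (hi.trans Nat.lt_two_pow_self.le)
  have hki : k ≤ i := by exact_mod_cast hk.trans (log_two_pow_le i)
  rw [Nat.cast_one, div_one, Nat.cast_pow, Nat.cast_two, ← pow_succ'] at h1
  refine h1.trans (Nat.cast_le.2 (card_le_card fun n hn => ?_))
  obtain ⟨h2, j, hj, h3, -⟩ := mem_filter.1 hn
  have := mem_range.1 hj
  exact mem_filter.2 ⟨h2, 2 * j + 1, mem_Ioc.2 ⟨by omega, by omega⟩, h3⟩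

open Classical in
theorem many_eqv_all : ∃ δ : ℝ, 0 < δ ∧ ∃ i₁ : ℕ, ∀ i, i₁ ≤ i →
    δ * 2 ^ i ≤ (((Ioc 0 (2 ^ (i + 1))).filter Eqv).card : ℝ) := by
  obtain ⟨c, hc, i₀, hmany⟩ := many_primes_all
  obtain ⟨C, hC0, hC⟩ := bad_count
  obtain ⟨k₀, hk₀⟩ := exists_nat_gt (64 / c)
  have hk0 : (0 : ℝ) < k₀ := lt_trans (by positivity) hk₀
  have hk1 : 0 < k₀ := by exact_mod_cast hk0
  set k := 4 * k₀ with hk
  set D : ℝ := 6 + 2 * exp 3 + C * k ^ 2 with hD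
  have hD0 : 0 < D := by positivity
  obtain ⟨j₀, hj₀, hj₁, hj₂⟩ := tail_small (ε := c / (8 * D)) (by positivity)
  obtain ⟨B, hB0, hB⟩ := card_smooth_dvd_le (2 ^ 2 ^ j₀) (ε := c / 16) (by positivity)
  obtain ⟨L, hL⟩ := exists_nat_gt (6 + 1152 / c)
  have hL6 : (6 : ℝ) ≤ L := le_trans (le_add_of_nonneg_right (by positivity)) hL.le
  obtain ⟨g₀, hg₀⟩ := eventually_mul_le_two_pow (L * k)
  have hBR : (0 : ℝ) < B := by exact_mod_cast hB0
  refine ⟨c / (2 * B), by positivity, i₀ + 2 * k₀ * (g₀ + 120), fun i hi => ?_⟩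
  have hA := hmany i (by omega)
  set h := i / k₀ with hh
  set g := h / 2 with hg
  have hh1 : 2 * (g₀ + 120) ≤ h := (Nat.le_div_iff_mul_le hk1).2 (by nlinarith)
  have hh2 : i < k₀ * (h + 1) := Nat.lt_mul_div_succ i hk1
  have hh3 : h * k₀ ≤ i := Nat.div_mul_le_self i k₀
  have hg1 : 120 ≤ g := by omega
  have hg2 : i + 1 ≤ k * g := by
    have : k₀ * (h + 1) ≤ k₀ * (4 * g) := Nat.mul_le_mul_left _ (by omega)
    rw [hk]; nlinarith
  have hi1 : 1 ≤ i := by nlinarith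
  have hg3 : L * i ≤ 2 ^ g := by
    refine le_trans ?_ (hg₀ g (by omega))
    rw [mul_assoc]; exact Nat.mul_le_mul_left _ (by omega)
  have hg4 : 2 ^ g * 2 ^ g ≤ 2 ^ h := by
    rw [← pow_add]; exact Nat.pow_le_pow_right two_pos (by omega)
  have hg5 : 6 * i * 2 ^ g ≤ 2 ^ h := by
    have : 6 ≤ L := by exact_mod_cast hL6
    exact le_trans (Nat.mul_le_mul_right _ ((Nat.mul_le_mul_right _ this).trans hg3)) hg4
  set N := 2 ^ (i + 1) with hN
  have hNR : (N : ℝ) = 2 * 2 ^ i := by rw [hN]; push_cast; ring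
  set x : ℝ := 2 ^ i with hx
  have hx0 : 0 < x := by positivity
  set E₁ := image₂ (· * ·) (Ioc 0 B) ((Ioc 0 N).filter Eqv)
  set E₂ := (Ioc (2 ^ i) N).filter (fun n => ∀ p, p.Prime → p ∣ n → p ≤ 2 ^ h)
  set E₃ := (Ioc 0 N).filter (fun n => ∃ k ∈ Ioc 0 (6 * i), Sq (2 ^ h) (n * k))
  set E₄ := (Ioc 0 N).filter (Sq (2 ^ j₀))
  set E₅ := (Ioc 0 N).filter (fun n => ∃ b, b ∣ n ∧ B < b ∧ ∀ p, p.Prime → p ∣ b → p ≤ 2 ^ 2 ^ j₀)
  let F : ℕ → Finset ℕ := fun j => (Ioc 0 N).filter (fun n => ¬ Sq (2 ^ j) n ∧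
      exp (0.59 * j) * cw (ha (2 ^ j) (2 ^ 2 ^ j)) n < 1) ∪ ((Ioc 0 N).filter (fun n =>
      exp (0.03 * j) < (((Ioc 0 (2 ^ j)).filter (fun d => d ∣ n)).card : ℝ)) ∪
      (Ioc 0 N).filter (Bad j (6 * i) g))
  set E₆ := (Ioc j₀ (i + 1)).biUnion F
  have hsub : (Ioc (2 ^ i) N).filter (fun n => ∃ s ∈ Ioc 0 (6 * i), (s * n + 1).Prime) ⊆
      E₁ ∪ (E₂ ∪ (E₃ ∪ (E₄ ∪ (E₅ ∪ E₆)))) := by
    intro n hn
    obtain ⟨h1, h2⟩ := mem_filter.1 hn
    have h3 : n ∈ Ioc 0 N := Ioc_subset_Ioc_left (Nat.zero_le _) h1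
    simp only [mem_union]
    rcases classify (j₀ := j₀) (B := B) h1 h2 hg5 with ⟨b, hb, c, rfl, h4⟩ | h4 | h4 | h4 | h4 |
      ⟨j, hj, h4⟩
    · rw [mem_Ioc] at h3
      exact Or.inl (mem_image₂.2 ⟨b, hb, c, mem_filter.2 ⟨mem_Ioc.2
        ⟨Nat.pos_of_mul_pos_left h3.1, (Nat.le_mul_of_pos_left _ (mem_Ioc.1 hb).1).trans h3.2⟩,
        h4⟩, rfl⟩)
    · exact Or.inr (Or.inl (mem_filter.2 ⟨h1, h4⟩))
    · exact Or.inr (Or.inr (Or.inl (mem_filter.2 ⟨h3, h4⟩)))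
    · exact Or.inr (Or.inr (Or.inr (Or.inl (mem_filter.2 ⟨h3, h4⟩))))
    · exact Or.inr (Or.inr (Or.inr (Or.inr (Or.inl (mem_filter.2 ⟨h3, h4⟩)))))
    · refine Or.inr (Or.inr (Or.inr (Or.inr (Or.inr (mem_biUnion.2 ⟨j, hj, ?_⟩)))))
      rcases h4 with h4 | h4 | h4
      · exact mem_union_left _ (mem_filter.2 ⟨h3, h4⟩)
      · exact mem_union_right _ (mem_union_left _ (mem_filter.2 ⟨h3, h4⟩))
      · exact mem_union_right _ (mem_union_right _ (mem_filter.2 ⟨h3, h4⟩))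
  have hcard : (((Ioc (2 ^ i) N).filter
      (fun n => ∃ s ∈ Ioc 0 (6 * i), (s * n + 1).Prime)).card : ℝ) ≤
      E₁.card + (E₂.card + (E₃.card + (E₄.card + (E₅.card + E₆.card)))) := by
    have := (card_le_card hsub).trans ((card_union_le _ _).trans (Nat.add_le_add_left
      ((card_union_le _ _).trans (Nat.add_le_add_left ((card_union_le _ _).trans
      (Nat.add_le_add_left ((card_union_le _ _).trans
      (Nat.add_le_add_left (card_union_le _ _) _)) _)) _)) _))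
    exact_mod_cast this
  have e1 : (E₁.card : ℝ) ≤ B * (((Ioc 0 N).filter Eqv).card : ℝ) := by
    have := card_image₂_le (· * ·) (Ioc 0 B) ((Ioc 0 N).filter Eqv)
    rw [Nat.card_Ioc, Nat.sub_zero] at this
    exact_mod_cast this
  have hiR : (0 : ℝ) < i := by exact_mod_cast hi1
  have e2 : (E₂.card : ℝ) ≤ c / 8 * x := by
    have h1 : (E₂.card : ℝ) * i ≤ 4 * x * (h + 2) := card_smooth_le i h
    have h2 : ((h : ℝ) + 2) * k₀ ≤ 2 * i := by
      have : (h + 2) * k₀ ≤ 2 * i := by nlinarith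
      exact_mod_cast this
    rw [div_lt_iff₀ hc] at hk₀
    apply le_of_mul_le_mul_right _ hiR
    refine h1.trans ?_
    have h3 : 32 * ((h : ℝ) + 2) ≤ c * i := by
      apply le_of_mul_le_mul_right _ hk0
      nlinarith
    nlinarith
  have e3 : (E₃.card : ℝ) ≤ c / 8 * x := by
    have h1 := card_sq_mul_le N (6 * i) (Z := 2 ^ h) Nat.one_le_two_pow
    refine h1.trans ?_
    have h2 : ((L : ℝ) * i) * (L * i) ≤ ((2 ^ h : ℕ) : ℝ) := by
      exact_mod_cast (Nat.mul_le_mul hg3 hg3).trans hg4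
    have h3 : 1152 ≤ c * L := by
      have : 1152 / c ≤ L := by linarith
      rwa [div_le_iff₀' hc] at this
    have hL0 : (0 : ℝ) < L := by linarith
    rw [hNR]
    calc _ ≤ ((6 * i : ℕ) : ℝ) * (2 * (2 * x * ((6 * i : ℕ) : ℝ)) / ((L * i) * (L * i))) := by
          gcongr
      _ = 144 / (L * L) * x := by push_cast; field_simp; norm_num
      _ ≤ _ := by
          refine mul_le_mul_of_nonneg_right ?_ hx0.le
          rw [div_le_div_iff₀ (by positivity) (by norm_num)]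
          nlinarith
  have e4 : (E₄.card : ℝ) ≤ 4 * x * (c / (8 * D)) := by
    refine (card_sq_le N (Z := 2 ^ j₀) Nat.one_le_two_pow).trans ?_
    rw [hNR]; push_cast
    calc _ = 4 * x * (1 / 2 ^ j₀) := by ring
      _ ≤ _ := mul_le_mul_of_nonneg_left hj₁ (by positivity)
  have e5 : (E₅.card : ℝ) ≤ c / 8 * x := by
    refine (hB N).trans (le_of_eq ?_)
    rw [hNR]; ring
  have e6 : (E₆.card : ℝ) ≤ (D - 4) * x * (c / (8 * D)) := by
    have h1 : ∀ j ∈ Ioc j₀ (i + 1), ((F j).card : ℝ) ≤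
        (D - 4) * x * (((j : ℝ) + 1) ^ 6 * exp (-(0.007 * j))) := by
      intro j hj
      have hj' := (mem_Ioc.1 hj).1
      have a1 := card_weight_le N j
      have a2 := card_many_dvd_le N j
      have a3 := hC i j g k (by omega) hg1 hg2 hi1
      have hj0 : (0 : ℝ) ≤ j := Nat.cast_nonneg _
      have b1 : exp (-(0.007 * j)) ≤ ((j : ℝ) + 1) ^ 6 * exp (-(0.007 * j)) :=
        le_mul_of_one_le_left (exp_pos _).le (one_le_pow₀ (by linarith))
      have b2 : ((j : ℝ) + 1) * exp (-(0.03 * j)) ≤ ((j : ℝ) + 1) ^ 6 * exp (-(0.007 * j)) :=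
        mul_le_mul (le_self_pow₀ (by linarith) (by norm_num)) (exp_le_exp.2 (by linarith))
          (exp_pos _).le (by positivity)
      have b3 := add_le_add (a1.trans (mul_le_mul_of_nonneg_left b1 (by positivity)))
        (add_le_add (a2.trans (mul_le_mul_of_nonneg_left b2 (Nat.cast_nonneg _))) a3)
      refine le_trans ?_ (b3.trans (le_of_eq ?_))
      · exact_mod_cast (card_union_le _ _).trans (Nat.add_le_add_left (card_union_le _ _) _)
      · rw [hNR, hD]; ring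
    calc (E₆.card : ℝ) ≤ ∑ j ∈ Ioc j₀ (i + 1), ((F j).card : ℝ) := by
          exact_mod_cast card_biUnion_le
      _ ≤ _ := sum_le_sum h1
      _ ≤ _ := by
          rw [← mul_sum]
          refine mul_le_mul_of_nonneg_left (hj₂ _) (mul_nonneg ?_ hx0.le)
          have : 0 ≤ 2 * exp 3 + C * k ^ 2 := by positivity
          rw [hD]; linarith
  have e7 : 4 * x * (c / (8 * D)) + (D - 4) * x * (c / (8 * D)) = c / 8 * x := by
    field_simp; ring
  rw [div_mul_eq_mul_div, div_le_iff₀ (by positivity)]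
  have := hA.trans hcard
  linarith

end Pool.Agent.P.MP_01fe58_nt
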