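import Mathlib

/-!
The monoid of pairs (cost, value) generated by the pairs `(m, φ m)` and squares.
-/

namespace Pool.Agent.P.MP_01fe58_nt

/-- Generators of the monoid of pairs. -/
def genP : Set (ℕ × ℕ) :=
  {g | (∃ p : ℕ, p.Prime ∧ g = (p, p - 1)) ∨
    ∃ r : ℕ, 2 ≤ r ∧ (g = (r ^ 2, r * (r - 1)) ∨ g = (r ^ 2, r ^ 2))}

/-- Generators of the monoid of values. -/
def genV : Set ℕ :=
  {v | (∃ p : ℕ, p.Prime ∧ v = p - 1) ∨ ∃ r : ℕ, 2 ≤ r ∧ (v = r * (r - 1) ∨ v = r ^ 2)}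

theorem extract {M : Type*} [CommMonoid M] (S : Set M) (f : M →* ℕ) {q : ℕ} (hq : q.Prime)
    {x : M} (hx : x ∈ Submonoid.closure S) (h : q ∣ f x) :
    ∃ g ∈ S, ∃ y ∈ Submonoid.closure S, x = g * y ∧ q ∣ f g := by
  induction hx using Submonoid.closure_induction with
  | mem x hx => exact ⟨x, hx, 1, one_mem _, (mul_one _).symm, h⟩
  | one => rw [map_one, Nat.dvd_one] at h; exact absurd h hq.one_lt.ne'
  | mul a b ha hb iha ihb =>
    rw [map_mul] at h
    rcases (Nat.Prime.dvd_mul hq).1 h with h | h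
    · obtain ⟨g, hg, y, hy, rfl, h'⟩ := iha h
      exact ⟨g, hg, y * b, mul_mem hy hb, mul_assoc _ _ _, h'⟩
    · obtain ⟨g, hg, y, hy, rfl, h'⟩ := ihb h
      exact ⟨g, hg, a * y, mul_mem ha hy, mul_left_comm _ _ _, h'⟩

theorem snd_mem {g : ℕ × ℕ} (hg : g ∈ Submonoid.closure genP) :
    g.2 ∈ Submonoid.closure genV ∧ 0 < g.2 ∧ g.2 ≤ g.1 := by
  induction hg using Submonoid.closure_induction with
  | mem x hx =>
    rcases hx with ⟨p, hp, rfl⟩ | ⟨r, hr, rfl | rfl⟩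
    · exact ⟨Submonoid.subset_closure (Or.inl ⟨p, hp, rfl⟩), Nat.sub_pos_of_lt hp.one_lt,
        Nat.sub_le _ _⟩
    · refine ⟨Submonoid.subset_closure (Or.inr ⟨r, hr, Or.inl rfl⟩),
        Nat.mul_pos (by omega) (by omega), ?_⟩
      simp only [sq]; exact Nat.mul_le_mul_left _ (Nat.sub_le _ _)
    · exact ⟨Submonoid.subset_closure (Or.inr ⟨r, hr, Or.inr rfl⟩), by positivity, le_rfl⟩
  | one => exact ⟨one_mem _, one_pos, le_rfl⟩
  | mul a b _ _ iha ihb =>
    exact ⟨mul_mem iha.1 ihb.1, Nat.mul_pos iha.2.1 ihb.2.1, Nat.mul_le_mul iha.2.2 ihb.2.2⟩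

theorem prime_pow_mem {p : ℕ} (hp : p.Prime) (k : ℕ) :
    (p ^ (k + 1), p ^ k * (p - 1)) ∈ Submonoid.closure genP := by
  induction k using Nat.twoStepInduction with
  | zero => exact Submonoid.subset_closure (Or.inl ⟨p, hp, by simp⟩)
  | one => exact Submonoid.subset_closure (Or.inr ⟨p, hp.two_le, Or.inl (by simp)⟩)
  | more k ih _ =>
    have h : (p ^ 2, p ^ 2) ∈ Submonoid.closure genP :=
      Submonoid.subset_closure (Or.inr ⟨p, hp.two_le, Or.inr rfl⟩)
    convert mul_mem h ih using 1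
    ext <;> simp <;> ring

theorem totient_mem {m : ℕ} (hm : 0 < m) : (m, m.totient) ∈ Submonoid.closure genP := by
  induction m using Nat.recOnPosPrimePosCoprime with
  | zero => exact absurd hm (lt_irrefl _)
  | one => exact one_mem _
  | prime_pow p n hp hn =>
    obtain ⟨k, rfl⟩ := Nat.exists_eq_succ_of_ne_zero hn.ne'
    rw [Nat.totient_prime_pow_succ hp]
    exact prime_pow_mem hp k
  | coprime a b ha hb hab iha ihb =>
    rw [Nat.totient_mul hab]
    exact mul_mem (iha (by omega)) (ihb (by omega))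

open Classical in
/-- The generators of the monoid of values lying in `[2, X]`. -/
noncomputable def genF (X : ℕ) : Finset ℕ := (Finset.Icc 2 X).filter (fun v => v ∈ genV)

theorem mem_closure_genF {v X : ℕ} (hv : v ∈ Submonoid.closure genV) (h0 : v ≠ 0) (hX : v ≤ X) :
    v ∈ Submonoid.closure (genF X : Set ℕ) := by
  induction hv using Submonoid.closure_induction with
  | mem x hx =>
    rcases eq_or_ne x 1 with rfl | h1
    · exact one_mem _
    · refine Submonoid.subset_closure ?_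
      simp only [genF, Finset.coe_filter, Finset.mem_Icc, Set.mem_ofPred_eq]
      exact ⟨⟨by omega, hX⟩, hx⟩
  | one => exact one_mem _
  | mul a b _ _ iha ihb =>
    have ha := left_ne_zero_of_mul h0
    have hb := right_ne_zero_of_mul h0
    exact mul_mem (iha ha ((Nat.le_mul_of_pos_right _ (Nat.pos_of_ne_zero hb)).trans hX))
      (ihb hb ((Nat.le_mul_of_pos_left _ (Nat.pos_of_ne_zero ha)).trans hX))

/-- The descent step: either a large square type divisor occurs, or `n = b * c` where the least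
prime that is one modulo `c` is the least integer whose totient is divisible by `c`. -/
theorem descent {n K q s₀ : ℕ} (hn : 2 ≤ n) (hs₀ : s₀ ≤ K) (hp₀ : (s₀ * n + 1).Prime)
    (hq : q.Prime) (hqn : q ∣ n) :
    (∃ k r : ℕ, 0 < k ∧ k ≤ K ∧ q ≤ r ∧ r * (r - 1) ∣ n * k) ∨
    (∃ k r : ℕ, 0 < k ∧ k ≤ K ∧ q ≤ r ∧ r ^ 2 ∣ n * k) ∨
    ∃ b c s t : ℕ, n = b * c ∧ b * t ∈ Submonoid.closure genV ∧ 0 < s ∧ 0 < t ∧ s * t ≤ K ∧
      (s * c + 1).Prime ∧ q < s * c + 1 ∧ ∀ m, 0 < m → c ∣ m.totient → s * c + 1 ≤ m := by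
  classical
  have hex : ∃ M : ℕ, ∃ V, (M, V) ∈ Submonoid.closure genP ∧ n ∣ V :=
    ⟨s₀ * n + 1, s₀ * n, Submonoid.subset_closure (Or.inl ⟨_, hp₀, by simp⟩), dvd_mul_left _ _⟩
  obtain ⟨V, hMV, k, hk⟩ := Nat.find_spec hex
  have hmin : ∀ M V, (M, V) ∈ Submonoid.closure genP → n ∣ V → Nat.find hex ≤ M :=
    fun M V h1 h2 => Nat.find_min' hex ⟨V, h1, h2⟩
  have hle : Nat.find hex ≤ s₀ * n + 1 :=
    hmin _ (s₀ * n) (Submonoid.subset_closure (Or.inl ⟨_, hp₀, by simp⟩)) (dvd_mul_left _ _)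
  generalize Nat.find hex = M at *
  obtain ⟨-, hV0, hVM⟩ := snd_mem hMV
  simp only at hV0 hVM
  have hk0 : 0 < k := Nat.pos_of_ne_zero (by rintro rfl; omega)
  have hkK : k ≤ K := by
    by_contra h
    have : n * (K + 1) ≤ n * k := Nat.mul_le_mul_left _ (by omega)
    have : s₀ * n ≤ K * n := Nat.mul_le_mul_right _ hs₀
    nlinarith
  obtain ⟨g, hg, y, hy, hgy, hqg⟩ := extract genP (MonoidHom.snd ℕ ℕ) hq hMV
    (hqn.trans ⟨k, hk⟩)
  obtain ⟨M', V'⟩ := y
  obtain ⟨hV', hV'0, hVM'⟩ := snd_mem hy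
  simp only at hV' hV'0 hVM'
  rcases hg with ⟨p, hp, rfl⟩ | ⟨r, hr, rfl | rfl⟩
  · right; right
    simp only [Prod.mk_mul_mk, Prod.mk.injEq, MonoidHom.coe_snd] at hgy hqg
    obtain ⟨hM, hV⟩ := hgy
    have hp1 : 0 < p - 1 := Nat.sub_pos_of_lt hp.one_lt
    obtain ⟨c, t, hco, hc, ht⟩ := Nat.exists_coprime n V'
    have hb0 : 0 < n.gcd V' := Nat.gcd_pos_of_pos_left _ (by omega)
    generalize n.gcd V' = b at *
    have h1 : c * k = (p - 1) * t := by
      have : b * (c * k) = b * ((p - 1) * t) := by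
        calc b * (c * k) = n * k := by rw [hc]; ring
          _ = (p - 1) * V' := by rw [← hk, hV]
          _ = _ := by rw [ht]; ring
      exact Nat.eq_of_mul_eq_mul_left hb0 this
    obtain ⟨s, hs⟩ : c ∣ p - 1 := hco.dvd_of_dvd_mul_right ⟨k, h1.symm⟩
    have hc0 : 0 < c := Nat.pos_of_ne_zero (by rintro rfl; omega)
    have hp' : s * c + 1 = p := by have := hp.one_lt; rw [mul_comm]; omega
    have hst : k = s * t := by
      rw [hs, mul_assoc] at h1
      exact Nat.eq_of_mul_eq_mul_left hc0 h1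
    refine ⟨b, c, s, t, by rw [hc, mul_comm], by rwa [mul_comm, ← ht], ?_, ?_, hst ▸ hkK,
      hp' ▸ hp, ?_, ?_⟩
    · exact Nat.pos_of_ne_zero (by rintro rfl; omega)
    · exact Nat.pos_of_ne_zero (by rintro rfl; omega)
    · have := Nat.le_of_dvd hp1 hqg; omega
    · intro m hm hcm
      have h2 := hmin (m * M') (m.totient * V') (mul_mem (totient_mem hm) hy)
        (by rw [hc, ht]; exact Nat.mul_dvd_mul hcm (dvd_mul_left _ _))
      rw [hM] at h2
      rw [hp']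
      exact Nat.le_of_mul_le_mul_right h2 (by omega)
  · left
    simp only [Prod.mk_mul_mk, Prod.mk.injEq, MonoidHom.coe_snd] at hgy hqg
    refine ⟨k, r, hk0, hkK, ?_, ⟨V', by rw [← hk, hgy.2]⟩⟩
    rcases (Nat.Prime.dvd_mul hq).1 hqg with h | h
    · exact Nat.le_of_dvd (by omega) h
    · have := Nat.le_of_dvd (by omega) h; omega
  · right; left
    simp only [Prod.mk_mul_mk, Prod.mk.injEq, MonoidHom.coe_snd] at hgy hqg
    exact ⟨k, r, hk0, hkK, Nat.le_of_dvd (by omega) (hq.dvd_of_dvd_pow hqg),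
      ⟨V', by rw [← hk, hgy.2]⟩⟩

end Pool.Agent.P.MP_01fe58_nt
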