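import Pool.Agent.P.MP_01fe58_nt.Monoid
import Pool.Agent.P.MP_01fe58_nt.ManyPrimes
import Pool.Agent.Lib.Sieve.Weighted

/-!
Weighted sums over smooth numbers, over shifted primes and over the monoid of values.
-/

namespace Pool.Agent.P.MP_01fe58_nt

open Finset Real Filter Pool.Agent.Lib.Sieve

/-- One half above `Z` and one elsewhere. -/
noncomputable def hb (Z p : ℕ) : ℝ := if Z < p then 1 / 2 else 1

theorem hb_nonneg (Z p : ℕ) : 0 ≤ hb Z p := by unfold hb; split_ifs <;> norm_num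

theorem hb_le_one (Z p : ℕ) : hb Z p ≤ 1 := by unfold hb; split_ifs <;> norm_num

theorem hb_le_ha (Z Y p : ℕ) : hb Z p ≤ ha Z Y p := by
  unfold hb ha; split_ifs <;> first | tauto | norm_num

/-- The weight divided by the argument. -/
noncomputable def gw (Z n : ℕ) : ℝ := cw (hb Z) n / n

theorem gw_nonneg (Z n : ℕ) : 0 ≤ gw Z n := div_nonneg (cw_nonneg (hb_nonneg Z) n) (by positivity)

theorem gw_le (Z n : ℕ) : gw Z n ≤ 1 / n := by
  unfold gw; gcongr; exact cw_le_one (hb_nonneg Z) (hb_le_one Z) n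

/-- The constant of the weighted sieve. -/
noncomputable def CS : ℝ := 2880 * exp 9 + 600

theorem CS_pos : 0 < CS := by unfold CS; positivity

theorem ew_one : ew 1 = 1 := by simp [ew]

theorem telescope {a : ℕ} (ha : 1 ≤ a) (k : ℕ) :
    ∑ j ∈ range k, 1 / (((a + j + 1 : ℕ) : ℝ) * √((a + j + 1 : ℕ) : ℝ)) ≤ 2 / √a := by
  have key : ∀ k : ℕ, ∑ j ∈ range k, 1 / (((a + j + 1 : ℕ) : ℝ) * √((a + j + 1 : ℕ) : ℝ)) ≤
      2 / √a - 2 / √((a + k : ℕ) : ℝ) := by
    intro k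
    induction k with
    | zero => simp
    | succ k ih =>
      rw [sum_range_succ, ← add_assoc]
      have h0 : (0 : ℝ) < ((a + k : ℕ) : ℝ) := by exact_mod_cast (by omega : 0 < a + k)
      have h1 : ((a + k + 1 : ℕ) : ℝ) = ((a + k : ℕ) : ℝ) + 1 := by push_cast; ring
      rw [h1]
      generalize ((a + k : ℕ) : ℝ) = z at *
      have hu := sqrt_pos.2 h0
      have hv := sqrt_pos.2 (show 0 < z + 1 by linarith)
      have hu2 := sq_sqrt h0.le
      have hv2 := sq_sqrt (show 0 ≤ z + 1 by linarith)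
      have huv : √z ≤ √(z + 1) := sqrt_le_sqrt (by linarith)
      have h2 : 1 / ((z + 1) * √(z + 1)) ≤ 2 / √z - 2 / √(z + 1) := by
        generalize √z = u at *
        generalize √(z + 1) = v at *
        have h3 : (v - u) * (v + u) = 1 := by nlinarith
        have h4 : 2 / u - 2 / v = 2 / (u * v * (v + u)) := by
          field_simp; nlinarith
        rw [h4, ← hv2, div_le_div_iff₀ (by positivity) (by positivity)]
        nlinarith [mul_pos hu hv, mul_pos hv hv, mul_le_mul_of_nonneg_left huv (mul_pos hu hv).le,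
          mul_le_mul_of_nonneg_left huv (mul_pos hv hv).le]
      linarith
  have := key k
  have : 0 ≤ 2 / √((a + k : ℕ) : ℝ) := by positivity
  linarith

theorem dyadic_tail {a Z : ℕ} (ha' : 120 ≤ a) (hZ : 2 ≤ Z) (X : ℕ) :
    ∑ c ∈ (Ioc (2 ^ a) X).filter (fun c => (c + 1).Prime), gw Z c ≤
      8 * CS * √(log Z) / √a := by
  have hsub : (Ioc (2 ^ a) X).filter (fun c => (c + 1).Prime) ⊆
      (Ioc (2 ^ a) (2 ^ (a + X))).filter (fun c => (c + 1).Prime) := by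
    refine filter_subset_filter _ (Ioc_subset_Ioc_right ?_)
    exact (Nat.lt_two_pow_self).le.trans (Nat.pow_le_pow_right (by norm_num) (by omega))
  refine (sum_le_sum_of_subset_of_nonneg hsub fun _ _ _ => gw_nonneg _ _).trans ?_
  rw [sum_filter, sum_dyadic]
  have hCS := CS_pos
  have h1 : ∀ j ∈ range X, ∑ c ∈ Ioc (2 ^ (a + j)) (2 ^ (a + j + 1)),
      (if (c + 1).Prime then gw Z c else 0) ≤
      4 * CS * √(log Z) * (1 / (((a + j + 1 : ℕ) : ℝ) * √((a + j + 1 : ℕ) : ℝ))) := by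
    intro j _
    set i := a + j
    have h2 := weighted_sieve (N := 2 ^ (i + 1)) (s := 1) (Z := Z) (Y := 2 ^ (i + 1))
      (Nat.pow_le_pow_right (by norm_num) (by omega)) one_pos hZ
      (le_trans (by norm_num) (Nat.pow_le_pow_right (by norm_num) (by omega : 1 ≤ i + 1)))
    rw [ew_one, min_self, mul_one] at h2
    simp only [one_mul] at h2
    rw [← sum_filter]
    have h3 : ∑ c ∈ (Ioc (2 ^ i) (2 ^ (i + 1))).filter (fun c => (c + 1).Prime), gw Z c ≤
        (∑ c ∈ (Ioc 0 (2 ^ (i + 1))).filter (fun c => (c + 1).Prime),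
          cw (ha Z (2 ^ (i + 1))) c) / 2 ^ i := by
      rw [sum_div]
      refine le_trans (sum_le_sum fun c hc => ?_) (sum_le_sum_of_subset_of_nonneg
        (filter_subset_filter _ (Ioc_subset_Ioc_left (Nat.zero_le (2 ^ i)))) fun c _ _ =>
          div_nonneg (cw_nonneg (ha_nonneg _ _) _) (by positivity))
      have h4 : (2 : ℝ) ^ i ≤ c := by exact_mod_cast (mem_Ioc.1 (mem_filter.1 hc).1).1.le
      exact div_le_div₀ (cw_nonneg (ha_nonneg _ _) _)
        (cw_mono (hb_nonneg Z) fun p _ _ => hb_le_ha _ _ _) (by positivity) h4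
    refine h3.trans ?_
    have h4 : log ((2 ^ (i + 1) : ℕ) : ℝ) = ((i + 1 : ℕ) : ℝ) * log 2 := by
      push_cast; rw [log_pow]; push_cast; ring
    rw [h4] at h2
    set u : ℝ := ((i + 1 : ℕ) : ℝ)
    have hu : 0 < u := by positivity
    have l2 := log_two_gt_d9
    have h5 : √(log Z / (u * log 2)) ≤ √(log Z) / √u * (5 / 4) := by
      have hl : 0 ≤ log Z := log_natCast_nonneg Z
      rw [← sqrt_div hl, ← sqrt_sq (show (0 : ℝ) ≤ 5 / 4 by norm_num), ← sqrt_mul (by positivity)]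
      apply sqrt_le_sqrt
      rw [← div_div, div_le_iff₀ (by linarith)]
      have : 0 ≤ log Z / u := by positivity
      nlinarith
    rw [div_le_iff₀ (by positivity)]
    refine h2.trans ?_
    have hs : 0 < √u := sqrt_pos.2 hu
    calc _ ≤ CS * (((2 ^ (i + 1) : ℕ) : ℝ) / (u * (5 / 8))) * (√(log Z) / √u * (5 / 4)) := by
          unfold CS; gcongr; linarith
      _ = _ := by push_cast; rw [pow_succ]; field_simp; ring
  refine (sum_le_sum h1).trans ?_
  rw [← mul_sum]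
  calc _ ≤ 4 * CS * √(log Z) * (2 / √a) := by gcongr; exact telescope (by omega) X
    _ = _ := by ring

theorem gen_sum_le {y : ℕ} (hy : 1 ≤ y) (Z X : ℕ) (S : Finset ℕ) (hS : S ⊆ genF X)
    (h : ∀ u ∈ S, ∃ q, q.Prime ∧ y < q ∧ q ∣ u) :
    ∑ u ∈ S, gw Z u ≤ ∑ c ∈ (Ioc y X).filter (fun c => (c + 1).Prime), gw Z c + 2 / y := by
  classical
  have hsub : S ⊆ (Ioc y X).filter (fun c => (c + 1).Prime) ∪
      ((Ioc y X).image (fun r => r * (r - 1)) ∪ (Ioc y X).image (fun r => r ^ 2)) := by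
    intro u hu
    obtain ⟨q, hq, hyq, hqu⟩ := h u hu
    have h1 := hS hu
    simp only [genF, mem_filter, mem_Icc] at h1
    obtain ⟨⟨h2, h3⟩, ⟨p, hp, rfl⟩ | ⟨r, hr, rfl | rfl⟩⟩ := h1
    · refine mem_union_left _ (mem_filter.2 ⟨mem_Ioc.2 ⟨?_, h3⟩, ?_⟩)
      · exact hyq.trans_le (Nat.le_of_dvd (by omega) hqu)
      · rwa [Nat.sub_add_cancel hp.one_le]
    · refine mem_union_right _ (mem_union_left _ (mem_image.2 ⟨r, mem_Ioc.2 ⟨?_, ?_⟩, rfl⟩))
      · rcases (Nat.Prime.dvd_mul hq).1 hqu with h | h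
        · exact hyq.trans_le (Nat.le_of_dvd (by omega) h)
        · have := Nat.le_of_dvd (by omega) h; omega
      · exact (Nat.le_mul_of_pos_right _ (by omega)).trans h3
    · refine mem_union_right _ (mem_union_right _ (mem_image.2 ⟨r, mem_Ioc.2 ⟨?_, ?_⟩, rfl⟩))
      · exact hyq.trans_le (Nat.le_of_dvd (by omega) (hq.dvd_of_dvd_pow hqu))
      · exact (Nat.le_self_pow (by norm_num) r).trans h3
  have hun : ∀ A B : Finset ℕ, ∑ u ∈ A ∪ B, gw Z u ≤ ∑ u ∈ A, gw Z u + ∑ u ∈ B, gw Z u := by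
    intro A B
    have h1 := sum_union_inter (s₁ := A) (s₂ := B) (f := gw Z)
    have h2 : 0 ≤ ∑ x ∈ A ∩ B, gw Z x := sum_nonneg fun x _ => gw_nonneg _ _
    linarith
  have h1 : ∑ u ∈ (Ioc y X).image (fun r => r * (r - 1)), gw Z u ≤ 1 / y := by
    refine (sum_image_le_of_nonneg fun _ _ => gw_nonneg _ _).trans ?_
    refine le_trans (sum_le_sum fun r hr => ?_)
      (sum_inv_sq_le (Ioc y X) hy fun r hr => (mem_Ioc.1 hr).1)
    refine (gw_le _ _).trans (le_of_eq ?_)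
    have : 1 ≤ r := hy.trans (mem_Ioc.1 hr).1.le
    push_cast [Nat.cast_sub this]; rfl
  have h2 : ∑ u ∈ (Ioc y X).image (fun r => r ^ 2), gw Z u ≤ 1 / y := by
    refine (sum_image_le_of_nonneg fun _ _ => gw_nonneg _ _).trans ?_
    refine le_trans (sum_le_sum fun r hr => ?_)
      (sum_inv_sq_le' (Ioc y X) hy fun r hr => (mem_Ioc.1 hr).1)
    refine (gw_le _ _).trans (le_of_eq ?_)
    push_cast; ring
  refine (sum_le_sum_of_subset_of_nonneg hsub fun _ _ _ => gw_nonneg _ _).trans ?_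
  refine (hun _ _).trans ?_
  have h3 := hun ((Ioc y X).image (fun r => r * (r - 1))) ((Ioc y X).image (fun r => r ^ 2))
  have h4 : (2 : ℝ) / y = 1 / y + 1 / y := by ring
  linarith

theorem log_two_pow_le (j : ℕ) : log ((2 ^ j : ℕ) : ℝ) ≤ j := by
  push_cast
  rw [log_pow]
  have := log_two_lt_d9
  exact mul_le_of_le_one_right (by positivity) (by linarith)

theorem all_gen_sum_le {j : ℕ} (hj : 120 ≤ j) (X : ℕ) :
    ∑ u ∈ genF X, gw (2 ^ j) u ≤ 2 * log (j + 1) + (16 + 8 * CS) := by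
  have hZ : 2 ≤ 2 ^ j := le_trans (by norm_num) (Nat.pow_le_pow_right (by norm_num) (by omega : 1 ≤ j))
  have h1 := gen_sum_le le_rfl (2 ^ j) X (genF X) subset_rfl (fun u hu => by
    simp only [genF, mem_filter, mem_Icc] at hu
    exact ⟨u.minFac, Nat.minFac_prime (by omega), (Nat.minFac_prime (by omega)).one_lt,
      Nat.minFac_dvd u⟩)
  have h2 := dyadic_tail hj hZ X
  have h3 : 8 * CS * √(log ((2 ^ j : ℕ) : ℝ)) / √j ≤ 8 * CS := by
    have := CS_pos
    rw [mul_div_assoc]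
    refine mul_le_of_le_one_right (by positivity) (div_le_one_of_le₀ ?_ (sqrt_nonneg _))
    exact sqrt_le_sqrt (log_two_pow_le j)
  have h4 : ∑ c ∈ (Ioc 1 (2 ^ j)).filter (fun c => (c + 1).Prime), gw (2 ^ j) c ≤
      2 * ∑ p ∈ Nat.primesLE (2 ^ (j + 1)), 1 / (p : ℝ) := by
    rw [mul_sum]
    calc _ ≤ ∑ c ∈ (Ioc 1 (2 ^ j)).filter (fun c => (c + 1).Prime),
            2 * (1 / ((c + 1 : ℕ) : ℝ)) := by
          refine sum_le_sum fun c hc => (gw_le _ _).trans ?_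
          have : (1 : ℝ) < c := by exact_mod_cast (mem_Ioc.1 (mem_filter.1 hc).1).1
          push_cast
          rw [mul_one_div, div_le_div_iff₀ (by linarith) (by linarith)]; linarith
      _ = ∑ p ∈ ((Ioc 1 (2 ^ j)).filter (fun c : ℕ => (c + 1).Prime)).image (fun c : ℕ => c + 1),
            2 * (1 / ((p : ℕ) : ℝ)) := by
          rw [sum_image (fun a _ b _ hab => by simpa using hab)]
      _ ≤ _ := by
          refine sum_le_sum_of_subset_of_nonneg (fun p hp => ?_) fun _ _ _ => by positivity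
          obtain ⟨c, hc, rfl⟩ := mem_image.1 hp
          rw [mem_filter, mem_Ioc] at hc
          exact Nat.mem_primesLE.2 ⟨by rw [pow_succ]; omega, hc.2⟩
  have h5 := sum_inv_primes_le (y := 2 ^ (j + 1)) (by rw [pow_succ]; omega)
  have h6 : log (log ((2 ^ (j + 1) : ℕ) : ℝ)) ≤ log (j + 1) := by
    apply log_le_log
    · have := one_half_le_log (y := 2 ^ (j + 1)) (by rw [pow_succ]; omega); linarith
    · exact_mod_cast log_two_pow_le (j + 1)
  have h7 : ∑ c ∈ (Ioc 1 X).filter (fun c => (c + 1).Prime), gw (2 ^ j) c ≤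
      ∑ c ∈ (Ioc 1 (2 ^ j)).filter (fun c => (c + 1).Prime), gw (2 ^ j) c +
      ∑ c ∈ (Ioc (2 ^ j) X).filter (fun c => (c + 1).Prime), gw (2 ^ j) c := by
    rw [← sum_union]
    · refine sum_le_sum_of_subset_of_nonneg (fun c hc => ?_) fun _ _ _ => gw_nonneg _ _
      simp only [mem_union, mem_filter, mem_Ioc] at hc ⊢
      rcases le_or_gt c (2 ^ j) with h | h
      · exact Or.inl ⟨⟨hc.1.1, h⟩, hc.2⟩
      · exact Or.inr ⟨⟨h, hc.1.2⟩, hc.2⟩
    · rw [disjoint_left]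
      intro c h1 h2
      simp only [mem_filter, mem_Ioc] at h1 h2
      omega
  simp only [Nat.cast_one, div_one] at h1
  linarith

theorem monoid_sum_le {j : ℕ} (hj : 120 ≤ j) (X : ℕ) (S : Finset ℕ)
    (hS : ∀ v ∈ S, v ∈ Submonoid.closure (genF X : Set ℕ)) :
    ∑ v ∈ S, gw (2 ^ j) v ≤ exp (32 + 16 * CS) * ((j : ℝ) + 1) ^ 4 := by
  have hle : ∀ q ∈ genF X, gw (2 ^ j) q ≤ 1 / 2 := by
    intro q hq
    simp only [genF, mem_filter, mem_Icc] at hq
    refine (gw_le _ _).trans (one_div_le_one_div_of_le (by norm_num) ?_)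
    exact_mod_cast hq.1.1
  have h1 := sum_le_exp (gw (2 ^ j)) (gw_nonneg _) (by simp [gw, cw_one])
    (fun a b => cw_div_submul _ a b) (genF X) hle S hS
  refine h1.trans ?_
  have h2 : ∑ q ∈ genF X, (gw (2 ^ j) q + 2 * gw (2 ^ j) q ^ 2) ≤
      2 * ∑ q ∈ genF X, gw (2 ^ j) q := by
    rw [mul_sum]
    refine sum_le_sum fun q hq => ?_
    have := hle q hq
    have := gw_nonneg (2 ^ j) q
    nlinarith
  have h3 := all_gen_sum_le hj X
  calc _ ≤ exp ((32 + 16 * CS) + (4 : ℕ) * log (j + 1)) := exp_le_exp.2 (by push_cast; linarith)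
    _ = _ := by rw [exp_add, exp_nat_mul, exp_log (by positivity)]

theorem le_two_pow_pred {j : ℕ} (hj : 1 ≤ j) : j ≤ 2 ^ (j - 1) := by
  have := Nat.lt_two_pow_self (n := j - 1); omega

theorem big_monoid_sum_le {j : ℕ} (hj : 120 ≤ j) (X : ℕ) (S : Finset ℕ)
    (hS : ∀ v ∈ S, v ∈ Submonoid.closure genV ∧ v ≠ 0 ∧ v ≤ X ∧
      ∃ q, q.Prime ∧ 2 ^ 2 ^ (j - 1) < q ∧ q ∣ v) :
    ∑ v ∈ S, gw (2 ^ j) v ≤
      (16 * CS + 2) * exp (32 + 16 * CS) * ((j : ℝ) + 1) ^ 5 / √((2 : ℝ) ^ j) := by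
  classical
  have hZ : 2 ≤ 2 ^ j := le_trans (by norm_num) (Nat.pow_le_pow_right (by norm_num) (by omega : 1 ≤ j))
  have hdec : ∀ v ∈ S, ∃ u ∈ genF X, ∃ w ∈ Submonoid.closure (genF X : Set ℕ), v = u * w ∧
      ∃ q, q.Prime ∧ 2 ^ 2 ^ (j - 1) < q ∧ q ∣ u := by
    intro v hv
    obtain ⟨h1, h2, h3, q, hq, hyq, hqv⟩ := hS v hv
    obtain ⟨u, hu, w, hw, h4, h5⟩ := extract (genF X : Set ℕ) (MonoidHom.id ℕ) hq
      (mem_closure_genF h1 h2 h3) hqv
    exact ⟨u, hu, w, hw, h4, q, hq, hyq, h5⟩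
  choose! u hu w hw huw hq using hdec
  have hinj : Set.InjOn (fun v => (u v, w v)) S := by
    intro a ha b hb hab
    simp only [Prod.mk.injEq] at hab
    rw [huw a ha, huw b hb, hab.1, hab.2]
  have h1 : ∑ v ∈ S, gw (2 ^ j) v ≤
      (∑ a ∈ S.image u, gw (2 ^ j) a) * ∑ b ∈ S.image w, gw (2 ^ j) b := by
    calc ∑ v ∈ S, gw (2 ^ j) v ≤ ∑ v ∈ S, gw (2 ^ j) (u v) * gw (2 ^ j) (w v) := by
          refine sum_le_sum fun v hv => ?_
          conv_lhs => rw [huw v hv]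
          exact cw_div_submul _ _ _
      _ = ∑ x ∈ S.image (fun v => (u v, w v)), gw (2 ^ j) x.1 * gw (2 ^ j) x.2 :=
          (sum_image (f := fun x : ℕ × ℕ => gw (2 ^ j) x.1 * gw (2 ^ j) x.2) hinj).symm
      _ ≤ ∑ x ∈ S.image u ×ˢ S.image w, gw (2 ^ j) x.1 * gw (2 ^ j) x.2 := by
          refine sum_le_sum_of_subset_of_nonneg (fun x hx => ?_) fun _ _ _ =>
            mul_nonneg (gw_nonneg _ _) (gw_nonneg _ _)
          obtain ⟨v, hv, rfl⟩ := mem_image.1 hx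
          exact mem_product.2 ⟨mem_image_of_mem _ hv, mem_image_of_mem _ hv⟩
      _ = _ := by rw [sum_mul_sum, sum_product]
  have h2 := monoid_sum_le hj X (S.image w) (fun v hv => by
    obtain ⟨a, ha, rfl⟩ := mem_image.1 hv; exact hw a ha)
  have h3 := gen_sum_le (y := 2 ^ 2 ^ (j - 1)) Nat.one_le_two_pow (2 ^ j) X (S.image u)
    (fun v hv => by obtain ⟨a, ha, rfl⟩ := mem_image.1 hv; exact hu a ha)
    (fun v hv => by obtain ⟨a, ha, rfl⟩ := mem_image.1 hv; exact hq a ha)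
  have hj' := le_two_pow_pred (j := j) (by omega)
  have h4 := dyadic_tail (a := 2 ^ (j - 1)) (hj.trans hj') hZ X
  have hCS := CS_pos
  set ρ := √((2 : ℝ) ^ j) with hρ
  have hρ0 : 0 < ρ := sqrt_pos.2 (by positivity)
  have hj0 : (1 : ℝ) ≤ j := by exact_mod_cast (by omega : 1 ≤ j)
  have h5 : √(log ((2 ^ j : ℕ) : ℝ)) ≤ (j : ℝ) + 1 := by
    rw [sqrt_le_iff]
    refine ⟨by positivity, (log_two_pow_le j).trans (by nlinarith)⟩
  have h6 : ρ / 2 ≤ √((2 ^ (j - 1) : ℕ) : ℝ) := by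
    apply le_sqrt_of_sq_le
    rw [div_pow, hρ, sq_sqrt (by positivity)]
    obtain ⟨k, rfl⟩ : ∃ k, j = k + 1 := ⟨j - 1, by omega⟩
    push_cast
    simp only [pow_succ]
    have : (0 : ℝ) < 2 ^ k := by positivity
    linarith
  have h7 : ρ ≤ ((2 ^ 2 ^ (j - 1) : ℕ) : ℝ) := by
    have h8 : ρ ≤ (2 : ℝ) ^ j := by
      rw [hρ, sqrt_le_iff]
      exact ⟨by positivity, le_self_pow₀ (one_le_pow₀ (by norm_num)) (by norm_num)⟩
    refine h8.trans ?_
    exact_mod_cast Nat.pow_le_pow_right (by norm_num) hj'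
  have h8 : ∑ a ∈ S.image u, gw (2 ^ j) a ≤ (16 * CS + 2) * ((j : ℝ) + 1) / ρ := by
    calc _ ≤ 8 * CS * ((j : ℝ) + 1) / (ρ / 2) + 2 * ((j : ℝ) + 1) / ρ := by
          refine h3.trans (add_le_add (h4.trans ?_) ?_)
          · gcongr
          · gcongr; linarith
      _ = _ := by field_simp; ring
  calc _ ≤ ((16 * CS + 2) * ((j : ℝ) + 1) / ρ) * (exp (32 + 16 * CS) * ((j : ℝ) + 1) ^ 4) :=
        h1.trans (mul_le_mul h8 h2 (sum_nonneg fun _ _ => gw_nonneg _ _) (by positivity))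
    _ = _ := by ring

theorem smooth_sum_le {j : ℕ} (hj : 1 ≤ j) (S : Finset ℕ)
    (hS : ∀ b ∈ S, b ≠ 0 ∧ ∀ p, p.Prime → p ∣ b → p ≤ 2 ^ 2 ^ j) :
    ∑ b ∈ S, gw (2 ^ j) b ≤ exp 13 * j * √((2 : ℝ) ^ j) := by
  have hZ : 2 ≤ 2 ^ j := le_trans (by norm_num) (Nat.pow_le_pow_right (by norm_num) hj)
  have hY : 2 ≤ 2 ^ 2 ^ j := le_trans (by norm_num)
    (Nat.pow_le_pow_right (by norm_num) (by omega : 1 ≤ 2 ^ j))
  have hP : ∀ p ∈ Nat.primesLE (2 ^ 2 ^ j), p.Prime := fun p hp => Nat.prime_of_mem_primesLE hp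
  have h1 := sum_le_exp (gw (2 ^ j)) (gw_nonneg _) (by simp [gw, cw_one])
    (fun a b => cw_div_submul _ a b) (Nat.primesLE (2 ^ 2 ^ j))
    (fun q hq => (gw_le _ _).trans (one_div_le_one_div_of_le (by norm_num)
      (by exact_mod_cast (hP q hq).two_le))) S
    (fun b hb => mem_closure_of_primes (hS b hb).1 fun p hp hpb => by
      simp only [mem_coe, Nat.mem_primesLE]; exact ⟨(hS b hb).2 p hp hpb, hp⟩)
  refine h1.trans ?_
  have h2 : ∀ q ∈ Nat.primesLE (2 ^ 2 ^ j), gw (2 ^ j) q + 2 * gw (2 ^ j) q ^ 2 ≤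
      (if q ≤ 2 ^ j then 1 / (q : ℝ) else 0) + 1 / 2 * (1 / (q : ℝ)) + 2 * (1 / (q : ℝ)) ^ 2 := by
    intro q hq
    have h3 := gw_le (2 ^ j) q
    have h4 := gw_nonneg (2 ^ j) q
    have h5 : 0 ≤ 1 / (q : ℝ) := by positivity
    refine add_le_add ?_ (by gcongr)
    split_ifs with h
    · linarith
    · rw [gw, cw_prime _ (hP q hq), hb, if_pos (not_le.1 h)]; apply le_of_eq; ring
  have h3 := sum_le_sum h2
  rw [sum_add_distrib (f := fun q : ℕ => (if q ≤ 2 ^ j then 1 / (q : ℝ) else 0) + _),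
    sum_add_distrib (f := fun q : ℕ => (if q ≤ 2 ^ j then 1 / (q : ℝ) else 0)), ← mul_sum,
    ← mul_sum, ← sum_filter] at h3
  have h4 := sum_inv_sq_primes_le _ hP
  have h5 := sum_inv_primes_le hY
  have h6 := sum_inv_primes_le hZ
  have h7 : ∑ q ∈ (Nat.primesLE (2 ^ 2 ^ j)).filter (fun q => q ≤ 2 ^ j), 1 / (q : ℝ) ≤
      ∑ q ∈ Nat.primesLE (2 ^ j), 1 / (q : ℝ) := by
    refine sum_le_sum_of_subset_of_nonneg (fun q hq => ?_) fun _ _ _ => by positivity
    rw [mem_filter] at hq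
    exact Nat.mem_primesLE.2 ⟨hq.2, hP q hq.1⟩
  have h8 : log (log ((2 ^ j : ℕ) : ℝ)) ≤ log j :=
    log_le_log (by have := one_half_le_log hZ; linarith) (log_two_pow_le j)
  have h9 : log (log ((2 ^ 2 ^ j : ℕ) : ℝ)) ≤ log ((2 : ℝ) ^ j) :=
    log_le_log (by have := one_half_le_log hY; linarith)
      (by exact_mod_cast log_two_pow_le (2 ^ j))
  calc _ ≤ exp (13 + log j + log ((2 : ℝ) ^ j) * (1 / 2)) := exp_le_exp.2 (by linarith)
    _ = _ := by
        rw [exp_add, exp_add, exp_log (by exact_mod_cast hj), sqrt_eq_rpow,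
          rpow_def_of_pos (by positivity)]

end Pool.Agent.P.MP_01fe58_nt
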