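import Pool.Agent.P.MP_01fe58_nt.Monoid
import Pool.Agent.P.MP_01fe58_nt.FirstMoment
import Pool.Agent.P.MP_01fe58_nt.ManyPrimes
import Pool.Agent.P.MP_01fe58_nt.Sums
import Pool.Agent.P.MP_01fe58_nt.Except
import Pool.Agent.P.MP_01fe58_nt.BadCount
import Pool.Agent.P.MP_01fe58_nt.Good

set_option autoImplicit false

namespace Pool.Agent.P.MP_01fe58_nt.VariantOftenEqual
open Pool.Agent.P.MP_01fe58_nt

/-- The set of n for which the least prime congruent to 1 mod n is also the least m with n dividing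
the totient of m has positive upper density. -/
theorem result :
    ∃ δ : ℝ, 0 < δ ∧ ∀ N₀ : ℕ, ∃ N : ℕ, N₀ ≤ N ∧
      δ * N ≤ ({n : ℕ | 1 ≤ n ∧ n ≤ N ∧ ∃ p : ℕ,
        IsLeast {q : ℕ | q.Prime ∧ q ≡ 1 [MOD n]} p ∧
        IsLeast {m : ℕ | 0 < m ∧ n ∣ Nat.totient m} p}.ncard : ℝ) := by
  classical
  obtain ⟨δ, hδ, h⟩ := many_eqv
  refine ⟨δ / 2, by positivity, fun N₀ => ?_⟩
  obtain ⟨i, hi, hE⟩ := h N₀
  have hpow : i + 1 < 2 ^ (i + 1) := Nat.lt_two_pow_self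
  refine ⟨2 ^ (i + 1), by omega, ?_⟩
  have e : δ / 2 * ((2 ^ (i + 1) : ℕ) : ℝ) = δ * 2 ^ i := by push_cast; ring
  rw [e]
  refine hE.trans ?_
  rw [← Set.ncard_coe_finset]
  refine Nat.cast_le.2 (Set.ncard_le_ncard (fun n hn => ?_)
    ((Set.finite_Iic (2 ^ (i + 1))).subset (fun n hn => hn.2.1)))
  obtain ⟨h1, s, hp, hmin⟩ := Finset.mem_filter.1 (Finset.mem_coe.1 hn)
  obtain ⟨h2, h3⟩ := Finset.mem_Ioc.1 h1
  refine ⟨h2, h3, s * n + 1, ⟨⟨hp, by simp [Nat.ModEq]⟩, fun q hq => ?_⟩,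
    ⟨Nat.succ_pos _, by rw [Nat.totient_prime hp]; simp⟩, fun m hm => hmin m hm.1 hm.2⟩
  refine hmin q hq.1.pos ?_
  rw [Nat.totient_prime hq.1]
  exact (Nat.modEq_iff_dvd' hq.1.one_le).1 hq.2.symm

end Pool.Agent.P.MP_01fe58_nt.VariantOftenEqual
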